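import Mathlib

set_option autoImplicit false

/-! # Level sets of polynomials are unions of few intervals -/

open Finset Polynomial

namespace Pool.Agent.H559.UB

/-- sums over intervals with few break points -/
theorem split_sum (φ : ℕ → ℝ) (Z : Finset ℕ) (e E e1 : ℝ) (hE : 0 ≤ E) (x : ℕ)
    (h1 : ∀ n, |φ n| ≤ e1) (h : ∀ a b : ℕ, a ≤ b → b ≤ x → (∀ z ∈ Z, z ∉ Ioc a b) → |∑ n ∈ Ioc a b, φ n| ≤ e * ((b : ℝ) - a) + E) :
    ∀ (m a b : ℕ), a ≤ b → b ≤ x → (Z.filter (fun z => z ∈ Ioc a b)).card ≤ m →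
      |∑ n ∈ Ioc a b, φ n| ≤ e * ((b : ℝ) - a) + (m + 1) * E + m * (e1 + |e|) := by
  intro m
  induction m using Nat.strong_induction_on with
  | _ m ih =>
    intro a b hab hbx hm
    have he1 : 0 ≤ e1 := (abs_nonneg _).trans (h1 0)
    by_cases hZ : ∀ z ∈ Z, z ∉ Ioc a b
    · refine (h a b hab hbx hZ).trans ?_
      have : 0 ≤ (m : ℝ) * E := by positivity
      have : 0 ≤ (m : ℝ) * (e1 + |e|) := by positivity
      linarith
    · push Not at hZ
      obtain ⟨z, hz, hz2⟩ := hZ
      have hz3 := mem_Ioc.1 hz2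
      set m1 := (Z.filter (fun y => y ∈ Ioc a (z - 1))).card with hm1
      set m2 := (Z.filter (fun y => y ∈ Ioc z b)).card with hm2
      have hsum : m1 + m2 + 1 ≤ m := by
        have hd : Disjoint (Z.filter (fun y => y ∈ Ioc a (z - 1))) (Z.filter (fun y => y ∈ Ioc z b)) := by
          rw [disjoint_filter]
          intro y _ h2 h3
          rw [mem_Ioc] at h2 h3
          omega
        have hd2 : Disjoint (Z.filter (fun y => y ∈ Ioc a (z - 1)) ∪ Z.filter (fun y => y ∈ Ioc z b)) {z} := by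
          rw [disjoint_singleton_right, mem_union, mem_filter, mem_filter, mem_Ioc, mem_Ioc]
          omega
        have hsub : (Z.filter (fun y => y ∈ Ioc a (z - 1)) ∪ Z.filter (fun y => y ∈ Ioc z b)) ∪ {z} ⊆
            Z.filter (fun y => y ∈ Ioc a b) := by
          intro y hy
          rw [mem_union, mem_union, mem_filter, mem_filter, mem_singleton, mem_Ioc, mem_Ioc] at hy
          rw [mem_filter, mem_Ioc]
          rcases hy with (⟨h2, h3⟩ | ⟨h2, h3⟩) | rfl
          · exact ⟨h2, by omega⟩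
          · exact ⟨h2, by omega⟩
          · exact ⟨hz, by omega⟩
        have := card_le_card hsub
        rw [card_union_of_disjoint hd2, card_union_of_disjoint hd, card_singleton] at this
        omega
      have i1 := ih m1 (by omega) a (z - 1) (by omega) (by omega) le_rfl
      have i2 := ih m2 (by omega) z b hz3.2 hbx le_rfl
      have e2 : Ioc a b = (Ioc a (z - 1) ∪ {z}) ∪ Ioc z b := by
        ext y
        simp only [mem_union, mem_Ioc, mem_singleton]
        omega
      have e3 : Disjoint (Ioc a (z - 1)) {z} := by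
        rw [disjoint_singleton_right, mem_Ioc]
        omega
      have e4 : Disjoint (Ioc a (z - 1) ∪ {z}) (Ioc z b) := by
        rw [disjoint_left]
        intro y h2 h3
        simp only [mem_union, mem_Ioc, mem_singleton] at h2 h3
        omega
      rw [e2, sum_union e4, sum_union e3, sum_singleton]
      have h5 := abs_add_le (∑ n ∈ Ioc a (z - 1), φ n + φ z) (∑ n ∈ Ioc z b, φ n)
      have h6 := abs_add_le (∑ n ∈ Ioc a (z - 1), φ n) (φ z)
      have h7 := h1 z
      rw [Nat.cast_sub (by omega : 1 ≤ z)] at i1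
      push_cast at i1
      have h8 : (m1 : ℝ) + m2 + 1 ≤ m := by exact_mod_cast hsum
      have h9 : -|e| ≤ e := neg_abs_le e
      have h10 : ((m1 : ℝ) + m2 + 1) * E ≤ m * E := mul_le_mul_of_nonneg_right h8 hE
      have h11 : ((m1 : ℝ) + m2 + 1) * (e1 + |e|) ≤ m * (e1 + |e|) := mul_le_mul_of_nonneg_right h8 (by positivity)
      nlinarith

/-- the break points of a level -/
noncomputable def brk (G : ℤ[X]) (t : ℤ) : Finset ℕ :=
  ((G - C t).map (Int.castRingHom ℝ)).roots.toFinset.image Nat.floor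

theorem brk_card (G : ℤ[X]) (t : ℤ) (D : ℕ) (hD : G.natDegree ≤ D) : (brk G t).card ≤ D := by
  unfold brk
  refine card_image_le.trans ((Multiset.toFinset_card_le _).trans ((card_roots' _).trans ?_))
  refine natDegree_map_le.trans ?_
  rw [natDegree_sub_C]
  exact hD

theorem brk_spec (G : ℤ[X]) (hG : 0 < G.natDegree) (t : ℤ) (n n' : ℕ) (h : n ≤ n')
    (hne : ¬ (t ≤ G.eval (n : ℤ) ↔ t ≤ G.eval (n' : ℤ))) : ∃ z ∈ brk G t, n ≤ z ∧ z ≤ n' := by
  set q := (G - C t).map (Int.castRingHom ℝ) with hq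
  have hev : ∀ m : ℕ, q.eval (m : ℝ) = ((G.eval (m : ℤ) - t : ℤ) : ℝ) := by
    intro m
    rw [hq, eval_map, show ((m : ℕ) : ℝ) = (Int.castRingHom ℝ) (m : ℤ) by simp, eval₂_hom, eval_sub, eval_C]
    simp
  have hq0 : q ≠ 0 := by
    rw [hq, Polynomial.map_ne_zero_iff (RingHom.injective_int _)]
    intro h0
    have := natDegree_sub_C (p := G) (a := t)
    rw [h0, natDegree_zero] at this
    omega
  have hnn : (n : ℝ) ≤ n' := by exact_mod_cast h
  have hroot : ∃ r ∈ Set.Icc (n : ℝ) n', q.eval r = 0 := by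
    have hc : ContinuousOn (fun r => q.eval r) (Set.Icc (n : ℝ) n') := q.continuous.continuousOn
    by_cases h1 : t ≤ G.eval (n : ℤ)
    · have h2 : ¬ t ≤ G.eval (n' : ℤ) := fun h2 => hne ⟨fun _ => h2, fun _ => h1⟩
      have h3 := intermediate_value_Icc' hnn hc
      have h4 : (0 : ℝ) ∈ Set.Icc (q.eval (n' : ℝ)) (q.eval (n : ℝ)) := by
        rw [hev, hev]
        constructor
        · exact_mod_cast (by omega : G.eval (n' : ℤ) - t ≤ 0)
        · exact_mod_cast (by omega : 0 ≤ G.eval (n : ℤ) - t)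
      obtain ⟨r, hr, hr2⟩ := h3 h4
      exact ⟨r, hr, hr2⟩
    · have h2 : t ≤ G.eval (n' : ℤ) := by
        by_contra h2
        exact hne ⟨fun h3 => absurd h3 h1, fun h3 => absurd h3 h2⟩
      have h3 := intermediate_value_Icc hnn hc
      have h4 : (0 : ℝ) ∈ Set.Icc (q.eval (n : ℝ)) (q.eval (n' : ℝ)) := by
        rw [hev, hev]
        constructor
        · exact_mod_cast (by omega : G.eval (n : ℤ) - t ≤ 0)
        · exact_mod_cast (by omega : 0 ≤ G.eval (n' : ℤ) - t)
      obtain ⟨r, hr, hr2⟩ := h3 h4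
      exact ⟨r, hr, hr2⟩
  obtain ⟨r, hr, hr2⟩ := hroot
  refine ⟨⌊r⌋₊, mem_image.2 ⟨r, ?_, rfl⟩, ?_, ?_⟩
  · rw [Multiset.mem_toFinset, mem_roots hq0]
    exact hr2
  · exact Nat.le_floor hr.1
  · have : (⌊r⌋₊ : ℝ) ≤ n' := (Nat.floor_le ((Nat.cast_nonneg n).trans hr.1)).trans hr.2
    exact_mod_cast this

/-- the number of the solutions of `G n = v` -/
theorem sol_card (G : ℤ[X]) (hG : 0 < G.natDegree) (D : ℕ) (hD : G.natDegree ≤ D) (S : Finset ℕ) (v : ℤ) :
    (S.filter (fun n : ℕ => G.eval (n : ℤ) = v)).card ≤ D := by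
  classical
  have h0 : G - C v ≠ 0 := by
    intro h0
    have := natDegree_sub_C (p := G) (a := v)
    rw [h0, natDegree_zero] at this
    omega
  have h1 : (S.filter (fun n : ℕ => G.eval (n : ℤ) = v)).image (fun n : ℕ => (n : ℤ)) ⊆ (G - C v).roots.toFinset := by
    intro y hy
    rw [mem_image] at hy
    obtain ⟨n, hn, rfl⟩ := hy
    rw [Multiset.mem_toFinset, mem_roots h0, IsRoot.def, eval_sub, eval_C, (mem_filter.1 hn).2, sub_self]
  have h2 := card_le_card h1
  rw [card_image_of_injective _ Nat.cast_injective] at h2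
  refine h2.trans ((Multiset.toFinset_card_le _).trans ((card_roots' _).trans ?_))
  rw [natDegree_sub_C]
  exact hD

/-- the number of the small values -/
theorem small_card (G : ℤ[X]) (hG : 0 < G.natDegree) (D : ℕ) (hD : G.natDegree ≤ D) (S : Finset ℕ) (T : ℕ)
    (hS : ∀ n ∈ S, |G.eval (n : ℤ)| < T) : S.card ≤ 2 * T * D := by
  classical
  have h1 : S ⊆ (Ioo (-(T : ℤ)) T).biUnion (fun v => S.filter (fun n : ℕ => G.eval (n : ℤ) = v)) := by
    intro n hn
    rw [mem_biUnion]
    exact ⟨G.eval (n : ℤ), mem_Ioo.2 (abs_lt.1 (hS n hn)), mem_filter.2 ⟨hn, rfl⟩⟩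
  refine (card_le_card h1).trans (card_biUnion_le.trans ?_)
  calc ∑ v ∈ Ioo (-(T : ℤ)) T, (S.filter (fun n : ℕ => G.eval (n : ℤ) = v)).card ≤ ∑ _v ∈ Ioo (-(T : ℤ)) T, D :=
        sum_le_sum fun v _ => sol_card G hG D hD S v
    _ = (Ioo (-(T : ℤ)) T).card * D := by rw [sum_const, smul_eq_mul]
    _ ≤ 2 * T * D := by
        refine Nat.mul_le_mul_right _ ?_
        rw [Int.card_Ioo]
        omega

end Pool.Agent.H559.UB
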