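import Pool.Agent.H559.PV.Eng

set_option autoImplicit false

/-! # Counting the simultaneous random prime values of polynomials: the local conditions depend on the height -/

open Finset MeasureTheory ProbabilityTheory Filter Topology
open Pool.Agent.T2H32.BF (Model prob V V_pos V_anti V_ratio recip_le mertens)
open Pool.Agent.H559.BS (Limit TT TT_le TT_ge TT_top log_TT V_TT log_pow_le log_top g g_pos sum_sq)
open Pool.Agent.H559.HY (Arr evl rts rts_sub box mem_box card_box X K2 K2_pos tau kl wt wt_le surv dev base Om RS cnt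
  low_sub up_sub Cut facts_ev Facts tt Sg Sg_nonneg dens_split cmpA cmpB prodk prodV up_dens card_le_p pow_top
  bcU base_sub base_dep)

namespace Pool.Agent.H559.PV

variable {Ω : Type*} [MeasurableSpace Ω] {P : Measure Ω} {a : ℕ → Ω → ℕ} {k D : ℕ}

/-- **The random part of the sieve, uniformly in everything.** -/
theorem ev1' (h : Model P a) (k D A B : ℕ) (δ ε₁ c1 : ℝ) (hδ : 0 < δ) (hδ2 : δ ≤ 1) (hε : 0 < ε₁)
    (hc1 : 0 < c1) (w1 w2 : ℕ → ℕ) :
    ∀ᵐ ω ∂P, ∀ᶠ x : ℕ in atTop, ∀ C ∈ box k D (x ^ A), (∀ p, p.Prime → TT δ x < p → Gd C p) → Row C →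
      ∀ (Z : Fin k → ℕ) (N k0 y : ℕ) (up : Bool), (∀ i, Z i ≤ x ^ A) → N ≤ x ^ A → k0 ≤ x → y ≤ x →
      V (TT δ x) ≤ c1 * V N →
      dev C Z (TT δ x) N (fun i => a i ω) (base C (w1 x) (w2 x) up (TT δ x) k0 y (fun i => a i ω)) <
        ε₁ * (x / Real.log x ^ B) := by
  have hprob := prob h
  set M : ℕ := (A + 2) * ((D + 1) * k) + (A + 2) * k + (A + 2) + 3 + 3 + 1 with hM
  set I : ℕ → Finset (Arr k D × (Fin k → ℕ) × ℕ × ℕ × ℕ × Bool) := fun x =>
    box k D (x ^ A) ×ˢ (Fintype.piFinset fun _ => range (x ^ A + 1)) ×ˢ range (x ^ A + 1) ×ˢ range (x + 1) ×ˢ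
      range (x + 1) ×ˢ univ with hI
  set Q : ℕ → Arr k D × (Fin k → ℕ) × ℕ × ℕ × ℕ × Bool → Set Ω := fun x i =>
    {ω | ((∀ p, p.Prime → TT δ x < p → Gd i.1 p) ∧ Row i.1 ∧ V (TT δ x) ≤ c1 * V i.2.2.1) ∧
      ε₁ * (x / Real.log x ^ B) ≤ dev i.1 i.2.1 (TT δ x) i.2.2.1 (fun i => a i ω)
        (base i.1 (w1 x) (w2 x) i.2.2.2.2.2 (TT δ x) i.2.2.2.1 i.2.2.2.2.1 (fun i => a i ω))} with hQ
  have hcard : ∀ᶠ x : ℕ in atTop, ((I x).card : ℝ) ≤ (x : ℝ) ^ M := by
    filter_upwards [eventually_ge_atTop 2] with x hx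
    have h1 : 2 * x ^ A + 1 ≤ x ^ (A + 2) := by
      have h2 : 1 ≤ x ^ A := Nat.one_le_pow _ _ (by omega)
      have h3 : 4 ≤ x ^ 2 := Nat.pow_le_pow_left hx 2
      calc 2 * x ^ A + 1 ≤ x ^ A * 4 := by omega
        _ ≤ x ^ A * x ^ 2 := Nat.mul_le_mul_left _ h3
        _ = x ^ (A + 2) := by rw [pow_add]
    have h2 : x ^ A + 1 ≤ x ^ (A + 2) := by omega
    have h3 : x + 1 ≤ x ^ 3 := by
      have : 4 ≤ x ^ 2 := Nat.pow_le_pow_left hx 2
      calc x + 1 ≤ 4 * x := by omega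
        _ ≤ x ^ 2 * x := Nat.mul_le_mul_right _ this
        _ = x ^ 3 := by ring
    have h4 : (I x).card ≤ x ^ M := by
      rw [hI]
      simp only [card_product, card_box, Fintype.card_piFinset_const, card_range, card_univ, Fintype.card_bool]
      calc (2 * x ^ A + 1) ^ ((D + 1) * k) * ((x ^ A + 1) ^ k * ((x ^ A + 1) * ((x + 1) * ((x + 1) * 2))))
          ≤ (x ^ (A + 2)) ^ ((D + 1) * k) * ((x ^ (A + 2)) ^ k * (x ^ (A + 2) * (x ^ 3 * (x ^ 3 * x)))) := by
            gcongr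
        _ = x ^ M := by
            rw [hM, ← pow_mul, ← pow_mul]
            ring
    exact_mod_cast h4
  have hbad : ∀ᶠ x : ℕ in atTop, ∀ i ∈ I x, P.real (Q x i) ≤ 1 / (x : ℝ) ^ (M + 2) := by
    filter_upwards [blockP h k D δ ε₁ c1 (k ^ 2 * (A + 1) / Real.log 2) B (M + 2) hδ hδ2 hε hc1 (by
        have := Real.log_pos (show (1 : ℝ) < 2 by norm_num)
        positivity),
      (Pool.Agent.H559.BS.TT_top δ hδ).eventually_ge_atTop 1, eventually_ge_atTop 2] with x h1 h2 hx2 i hi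
    rw [hI] at hi
    simp only [mem_product, mem_range] at hi
    have h2a : 1 ≤ TT δ x := h2
    by_cases hcon : (∀ p, p.Prime → TT δ x < p → Gd i.1 p) ∧ Row i.1 ∧ V (TT δ x) ≤ c1 * V i.2.2.1
    · have hbs : bs i.1 (TT δ x) i.2.2.1 ≤ k ^ 2 * (A + 1) / Real.log 2 * Real.log x / TT δ x := by
        have hl2 := Real.log_pos (show (1 : ℝ) < 2 by norm_num)
        have hxR : (2 : ℝ) ≤ x := by exact_mod_cast hx2
        have hT0 : (0 : ℝ) < TT δ x := by exact_mod_cast h2a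
        refine (bsum_le i.1 (x ^ A) (Nat.one_le_pow _ _ (by omega)) hi.1 hcon.2.1 (TT δ x) i.2.2.1 h2a).trans ?_
        refine div_le_div_of_nonneg_right ?_ hT0.le
        have h3 : Real.log (2 * ((x ^ A : ℕ) : ℝ)) ≤ (A + 1) * Real.log x := by
          rw [Nat.cast_pow, Real.log_mul (by norm_num) (by positivity), Real.log_pow]
          have := Real.log_le_log (by norm_num) hxR
          linarith
        calc (k : ℝ) ^ 2 * (Real.log (2 * ((x ^ A : ℕ) : ℝ)) / Real.log 2) ≤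
              (k : ℝ) ^ 2 * ((A + 1) * Real.log x / Real.log 2) := by gcongr
          _ = _ := by ring
      refine le_trans (measureReal_mono ?_ (measure_ne_top _ _)) (h1 i.1 (fun p hp hpT => hcon.1 p hp (by omega)) i.2.1 i.2.2.1
        i.2.2.2.1 i.2.2.2.2.1 hbs (by omega) hcon.2.2 (base i.1 (w1 x) (w2 x) i.2.2.2.2.2 (TT δ x) i.2.2.2.1 i.2.2.2.2.1)
        (base_sub _ _ _ _ _ _ _) (base_dep _ _ _ _ _ _ _))
      intro ω hω
      exact hω.2
    · have : Q x i = ∅ := by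
        ext ω
        simp only [hQ, Set.mem_ofPred_eq, Set.mem_empty_iff_false, iff_false]
        exact fun h => hcon h.1
      rw [this, measureReal_empty]
      positivity
  filter_upwards [bcU I Q M hcard hbad] with ω hω
  filter_upwards [hω] with x hx C hCb hC hRow Z N k0 y up hZ hN hk0 hy hV
  by_contra hcon
  rw [not_lt] at hcon
  refine hx (C, Z, N, k0, y, up) ?_ ⟨⟨hC, hRow, hV⟩, hcon⟩
  rw [hI]
  simp only [mem_product, mem_range, Fintype.mem_piFinset]
  exact ⟨hCb, fun i => by have := hZ i; omega, by omega, by omega, by omega, mem_univ _⟩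


/-- **The tails of the local densities, uniformly in everything.** -/
theorem ev2' (h : Model P a) (k D A : ℕ) (ε : ℝ) (hε : 0 < ε) (hε1 : ε ≤ 1) (w : ℕ → ℕ)
    (hw : Tendsto (fun x : ℕ => (w x : ℝ) / Real.log x) atTop atTop) :
    ∀ᵐ ω ∂P, ∀ᶠ x : ℕ in atTop, ∀ C ∈ box k D (x ^ A), (∀ p, p.Prime → w x < p → Gd C p) → Row C →
      ∀ v ≤ x ^ A, |∑ p ∈ (Ioc (w x) v).filter Nat.Prime, X C p (a p ω)| < ε := by
  have hprob := prob h
  have hK := K2_pos k D
  have hτ0 : 0 < tau k D ε := by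
    unfold tau
    positivity
  set M : ℕ := (A + 2) * ((D + 1) * k) + (A + 2) with hM
  set I : ℕ → Finset (Arr k D × ℕ) := fun x => box k D (x ^ A) ×ˢ range (x ^ A + 1) with hI
  set Q : ℕ → Arr k D × ℕ → Set Ω := fun x i =>
    {ω | ((∀ p, p.Prime → w x < p → Gd i.1 p) ∧ Row i.1) ∧
      ε ≤ |∑ p ∈ (Ioc (w x) i.2).filter Nat.Prime, X i.1 p (a p ω)|} with hQ
  have hcard : ∀ᶠ x : ℕ in atTop, ((I x).card : ℝ) ≤ (x : ℝ) ^ M := by
    filter_upwards [eventually_ge_atTop 2] with x hx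
    have h1 : 2 * x ^ A + 1 ≤ x ^ (A + 2) := by
      have h2 : 1 ≤ x ^ A := Nat.one_le_pow _ _ (by omega)
      have h3 : 4 ≤ x ^ 2 := Nat.pow_le_pow_left hx 2
      calc 2 * x ^ A + 1 ≤ x ^ A * 4 := by omega
        _ ≤ x ^ A * x ^ 2 := Nat.mul_le_mul_left _ h3
        _ = x ^ (A + 2) := by rw [pow_add]
    have h2 : x ^ A + 1 ≤ x ^ (A + 2) := by omega
    have h4 : (I x).card ≤ x ^ M := by
      rw [hI]
      simp only [card_product, card_box, card_range]
      calc (2 * x ^ A + 1) ^ ((D + 1) * k) * (x ^ A + 1)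
          ≤ (x ^ (A + 2)) ^ ((D + 1) * k) * x ^ (A + 2) := by gcongr
        _ = x ^ M := by
            rw [hM, ← pow_mul]
            ring
    exact_mod_cast h4
  have hwtop : Tendsto w atTop atTop := by
    have h1 : Tendsto (fun x : ℕ => (w x : ℝ)) atTop atTop := by
      refine tendsto_atTop_mono' atTop ?_ hw
      filter_upwards [log_top.eventually_ge_atTop 1] with x hx
      exact div_le_self (Nat.cast_nonneg _) hx
    exact tendsto_natCast_atTop_iff.1 h1
  have hbad : ∀ᶠ x : ℕ in atTop, ∀ i ∈ I x, P.real (Q x i) ≤ 1 / (x : ℝ) ^ (M + 2) := by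
    filter_upwards [hw.eventually_ge_atTop (((M : ℝ) + 3 + tau k D ε * (k ^ 2 * D) + tau k D ε * k * (k ^ 2 * (A + 1) / Real.log 2)) / (tau k D ε * ε / 2)),
      hwtop.eventually_ge_atTop 1, log_top.eventually_ge_atTop 1, eventually_ge_atTop 2] with x h1 h2 h3 hx i hi
    have hx0 : (0 : ℝ) < x := by exact_mod_cast (show 0 < x by omega)
    have hx2 : (2 : ℝ) ≤ x := by exact_mod_cast hx
    rw [hI] at hi
    simp only [mem_product, mem_range] at hi
    have hl2 := Real.log_pos (show (1 : ℝ) < 2 by norm_num)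
    by_cases hcon : (∀ p, p.Prime → w x < p → Gd i.1 p) ∧ Row i.1
    · have hw1 : 1 ≤ w x := h2
      have hw0 : (0 : ℝ) < w x := by exact_mod_cast hw1
      have hbs : tau k D ε * (w x) * k * bs i.1 (w x) i.2 ≤ tau k D ε * k * (k ^ 2 * (A + 1) / Real.log 2) * Real.log x := by
        have h7 := bsum_le i.1 (x ^ A) (Nat.one_le_pow _ _ (by omega)) hi.1 hcon.2 (w x) i.2 hw1
        have h3' : Real.log (2 * ((x ^ A : ℕ) : ℝ)) ≤ (A + 1) * Real.log x := by
          rw [Nat.cast_pow, Real.log_mul (by norm_num) (by positivity), Real.log_pow]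
          have := Real.log_le_log (by norm_num) hx2
          linarith
        have h8 : bs i.1 (w x) i.2 ≤ k ^ 2 * ((A + 1) * Real.log x / Real.log 2) / w x := by
          refine h7.trans ?_
          gcongr
        calc tau k D ε * (w x) * k * bs i.1 (w x) i.2 ≤
              tau k D ε * (w x) * k * (k ^ 2 * ((A + 1) * Real.log x / Real.log 2) / w x) := by gcongr
          _ = _ := by
              field_simp
      have h4 := tailP h i.1 (w x) i.2 h2
        (fun p hp hpw => hcon.1 p hp hpw) ε hε hε1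
      have h5 : Q x i ⊆ {ω | ε ≤ |∑ p ∈ (Ioc (w x) i.2).filter Nat.Prime, X i.1 p (a p ω)|} := fun ω hω => hω.2
      refine (measureReal_mono h5 (measure_ne_top _ _)).trans (h4.trans ?_)
      set L := Real.log x with hL
      have hc0 : 0 < tau k D ε * ε / 2 := by positivity
      have hn0 : 0 ≤ tau k D ε * (k ^ 2 * D) := by positivity
      have hn1 : 0 ≤ tau k D ε * k * (k ^ 2 * (A + 1) / Real.log 2) := by positivity
      rw [div_le_iff₀ hc0, div_mul_eq_mul_div, le_div_iff₀ (by linarith)] at h1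
      have h6 : -(tau k D ε * ε / 2) * (w x) + tau k D ε * (k ^ 2 * D) + tau k D ε * (w x) * k * bs i.1 (w x) i.2 ≤
          -(((M + 3 : ℕ) : ℝ) * L) := by
        push_cast
        nlinarith
      refine (mul_le_mul_of_nonneg_left (Real.exp_le_exp.2 h6) (by norm_num)).trans ?_
      have h13 : Real.exp (-(((M + 3 : ℕ) : ℝ) * L)) = 1 / (x : ℝ) ^ (M + 3) := by
        rw [Real.exp_neg, Real.exp_nat_mul, hL, Real.exp_log hx0, one_div]
      have e9 : (x : ℝ) ^ (M + 3) = (x : ℝ) ^ (M + 2) * x := by ring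
      have h14 := pow_pos hx0 (M + 2)
      rw [h13, e9, mul_one_div, div_le_div_iff₀ (by positivity) (by positivity)]
      nlinarith
    · have : Q x i = ∅ := by
        ext ω
        simp only [hQ, Set.mem_ofPred_eq, Set.mem_empty_iff_false, iff_false]
        exact fun h => hcon h.1
      rw [this, measureReal_empty]
      positivity
  filter_upwards [bcU I Q M hcard hbad] with ω hω
  filter_upwards [hω] with x hx C hCb hC hRow v hv
  by_contra hcon
  rw [not_lt] at hcon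
  refine hx (C, v) ?_ ⟨⟨hC, hRow⟩, hcon⟩
  rw [hI]
  simp only [mem_product, mem_range]
  exact ⟨hCb, by omega⟩


/-- the bound for the number of the classes of the rule -/
theorem Om_card' (C : Arr k D) (w1 w2 κ : ℕ) (up : Bool) (b : ℕ → ℕ) (p : ℕ) (hp : p.Prime)
    (hC : ∀ p, p.Prime → w1 < p → Gd C p) (hκ : ∀ p, p.Prime → p ≤ w1 → (rts C p 0).card ≤ κ) :
    Om C w1 w2 up b p ⊆ range p ∧ (Om C w1 w2 up b p).card ≤ 2 * (k * D) + κ := by
  have h1 : ¬ p ≤ w1 → ∀ c, (rts C p c).card ≤ k * D := fun h c => rts_card C p c hp (hC p hp (not_le.1 h))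
  unfold Om
  split_ifs with a1 a2 a3
  · exact ⟨rts_sub _ _ _, by have := hκ p hp a1; omega⟩
  · simp
  · refine ⟨union_subset (rts_sub _ _ _) (rts_sub _ _ _), ?_⟩
    have h2 := card_union_le (rts C p 0) (rts C p (b p))
    have h3 := h1 a1 0
    have h4 := h1 a1 (b p)
    omega
  · exact ⟨rts_sub _ _ _, by have := h1 a1 (b p); omega⟩

/-- **The number of the simultaneous random prime values.** -/
theorem engine' (h : Model P a) (z W : ℕ → ℕ) (hz : Limit z) (hW : Cut W) (k D A κ B : ℕ) (hA : 1 ≤ A) (η ε : ℝ)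
    (hη : 0 < η) (hη1 : η ≤ 1) (hε : 0 < ε) (hε1 : ε ≤ 1) :
    ∀ᵐ ω ∂P, ∀ᶠ x : ℕ in atTop, ∀ C ∈ box k D (x ^ A), (∀ p, p.Prime → W (TT η x) < p → Gd C p) →
      (∀ p, p.Prime → p ≤ W (TT η x) → (rts C p 0).card ≤ κ) → Row C →
      ∀ (k0 y : ℕ) (lo hi : Fin k → ℕ), k0 ≤ x → y ≤ x → (∀ i, TT η x ≤ lo i) → (∀ i, hi i ≤ x ^ A) →
      (∀ m ∈ Ioc k0 (k0 + y), ∀ i, (lo i : ℤ) ≤ evl (C i) m ∧ evl (C i) m ≤ hi i) →
      (1 - ε) * (y * (Sg C (W (TT η x)) * ∏ i, V (z (hi i)))) - x / Real.log x ^ B ≤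
        cnt C (RS z W (fun p => a p ω)) k0 y ∧
      cnt C (RS z W (fun p => a p ω)) k0 y ≤
        (1 + ε) * (y * (Sg C (W (TT η x)) * ∏ i, V (z (lo i)))) + x / Real.log x ^ B := by
  have hprob := prob h
  have hg := g_pos
  have hK := K2_pos k D
  have hA0 : (0 : ℝ) < A := by exact_mod_cast hA
  obtain ⟨Bf, Kf, hKf, hfl⟩ := Pool.Agent.T2H32.GB.flg (2 * (k * D) + κ) (ε / 4) (by positivity)
  set δ : ℝ := min (1 / (2 * ((Bf : ℝ) + 1))) (g * η / 16) with hδd
  have hBf0 : (0 : ℝ) ≤ Bf := Nat.cast_nonneg _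
  have hδ : 0 < δ := lt_min (by positivity) (by positivity)
  have hδ1' : δ ≤ 1 / (2 * ((Bf : ℝ) + 1)) := min_le_left _ _
  have hδ2 : 16 * δ ≤ g * η := by
    have : δ ≤ g * η / 16 := min_le_right _ _
    linarith
  have hδ1 : δ ≤ 1 := by
    refine hδ1'.trans ?_
    rw [div_le_one (by positivity)]
    linarith
  have hδB : δ * Bf ≤ 1 / 2 := by
    calc δ * Bf ≤ 1 / (2 * ((Bf : ℝ) + 1)) * Bf := by gcongr
      _ ≤ 1 / 2 := by
          rw [div_mul_eq_mul_div, div_le_div_iff₀ (by positivity) (by norm_num)]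
          linarith
  have hc1 : 0 < 8 * A * g / δ := by positivity
  have he : 0 < min (ε / 8) 1 := by positivity
  have hF := facts_ev z W hz hW k D A 0 B Bf hA η δ ε Kf hη hη1 hδ hδ1 hδ2 hε hKf hδB
  have hE1 := ev1' h k D (4 * A) B δ (1 / 2) (8 * A * g / δ) hδ hδ1 (by norm_num) hc1 (fun x => W (TT η x))
    (fun x => W (x ^ A))
  have hwt : Tendsto (fun x : ℕ => ((W (x ^ A) : ℕ) : ℝ) / Real.log x) atTop atTop := by
    have h1 := hW.top.comp (pow_top A hA)
    refine tendsto_atTop_mono' atTop ?_ h1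
    filter_upwards [log_top.eventually_ge_atTop 1] with x hx
    simp only [Function.comp_apply, Nat.cast_pow, Real.log_pow]
    have h2 : (1 : ℝ) ≤ A := by exact_mod_cast hA
    have h3 : (0 : ℝ) ≤ (W (x ^ A) : ℝ) := Nat.cast_nonneg _
    gcongr
    nlinarith
  have hE2 := ev2' h k D (4 * A) (min (ε / 8) 1) he (min_le_right _ _) (fun x => W (x ^ A)) hwt
  filter_upwards [hE1, hE2] with ω hω1 hω2
  filter_upwards [hω1, hω2, hF] with x hx1 hx2 hf C hCb hC hκ hRow k0 y lo hi hk0 hy hlo hhi hm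
  obtain ⟨x2, L1, T1, TA, w1a, w1b, w1c, w12, w2T, lo3, slow, Tz, zA, VT, E⟩ := hf
  set T := TT δ x with hTd
  set w1 := W (TT η x) with hw1
  set w2 := W (x ^ A) with hw2
  set b : ℕ → ℕ := fun p => a p ω with hb
  set N := z (x ^ A) with hN
  have hLB : 0 < Real.log x ^ B := pow_pos (by linarith) B
  have hx0 : (0 : ℝ) < x := by
    have : (2 : ℝ) ≤ x := by exact_mod_cast x2
    linarith
  have hXB : 0 ≤ (x : ℝ) / Real.log x ^ B := by positivity
  have hSg := Sg_nonneg C w1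
  rcases Nat.eq_zero_or_pos y with hy0 | hy0
  · have h0 : cnt C (RS z W b) k0 y = 0 := by
      unfold cnt
      rw [hy0]
      simp
    rw [h0, hy0]
    simp only [Nat.cast_zero, zero_mul, mul_zero, zero_sub, zero_add]
    exact ⟨by linarith, hXB⟩
  have hlohi : ∀ i, lo i ≤ hi i := by
    intro i
    have h1 := hm (k0 + 1) (by rw [mem_Ioc]; omega) i
    have h2 := h1.1.trans h1.2
    exact_mod_cast h2
  have hbox : C ∈ box k D (x ^ (4 * A)) := by
    rw [mem_box] at hCb ⊢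
    intro i j
    refine (hCb i j).trans ?_
    exact_mod_cast Nat.pow_le_pow_right (by omega) (by omega)
  have hxA : x ^ A ≤ x ^ (4 * A) := Nat.pow_le_pow_right (by omega) (by omega)
  have hzm := hz.1
  have hzhi : ∀ i, z (hi i) ≤ N := fun i => hzm (hhi i)
  have hzlo : ∀ i, z (lo i) ≤ N := fun i => hzm ((hlohi i).trans (hhi i))
  have hTlo : ∀ i, T ≤ z (lo i) := fun i => Tz.trans (hzm (hlo i))
  have hThi : ∀ i, T ≤ z (hi i) := fun i => (hTlo i).trans (hzm (hlohi i))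
  have hCw : ∀ p, p.Prime → w1 < p → Gd C p := fun p hp h1 => hC p hp h1
  have hCT : ∀ p, p.Prime → T < p → Gd C p := fun p hp h1 => hC p hp (lt_of_le_of_lt (w12.trans w2T) h1)
  have hCw2 : ∀ p, p.Prime → w2 < p → Gd C p := fun p hp h1 => hC p hp (lt_of_le_of_lt w12 h1)
  have hXs : |∑ p ∈ (Ioc w2 T).filter Nat.Prime, X C p (b p)| ≤ ε / 8 :=
    (hx2 C hbox hCw2 hRow T TA).le.trans (min_le_left _ _)
  have htt : tt k D (ε / 8) (ε / (16 * K2 k D)) w1 ≤ 3 * ε / 8 := by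
    unfold tt
    have : 2 * K2 k D * (ε / (16 * K2 k D)) = ε / 8 := by
      field_simp
      norm_num
    rw [this]
    linarith
  have hpr : ∀ Z : Fin k → ℕ, 0 ≤ ∏ p ∈ (Ioc T N).filter Nat.Prime, (1 - (wt Z p : ℝ) / (p : ℝ)) ∧
      ∏ p ∈ (Ioc T N).filter Nat.Prime, (1 - (wt Z p : ℝ) / (p : ℝ)) ≤ 1 := by
    intro Z
    have hkT : k ≤ T := by
      have h1 : (k : ℝ) ≤ w1 := by
        have : (k : ℝ) ≤ K2 k D := by
          unfold K2
          have : (0 : ℝ) ≤ k * D := by positivity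
          linarith
        linarith
      have h2 : k ≤ w1 := by exact_mod_cast h1
      exact h2.trans (w12.trans w2T)
    have h1 : ∀ p ∈ (Ioc T N).filter Nat.Prime, 0 ≤ 1 - (wt Z p : ℝ) / (p : ℝ) ∧ 1 - (wt Z p : ℝ) / (p : ℝ) ≤ 1 := by
      intro p hp
      rw [mem_filter, mem_Ioc] at hp
      have h3 : (wt Z p : ℝ) ≤ p := by
        have := wt_le Z p
        exact_mod_cast (show wt Z p ≤ p by omega)
      have h4 : (wt Z p : ℝ) / p ≤ 1 := by rw [div_le_one (by exact_mod_cast hp.2.pos)]; exact h3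
      have h5 : 0 ≤ (wt Z p : ℝ) / p := by positivity
      constructor <;> linarith
    exact ⟨prod_nonneg fun p hp => (h1 p hp).1, prod_le_one (fun p hp => (h1 p hp).1) fun p hp => (h1 p hp).2⟩
  have hy0R : (0 : ℝ) ≤ y := Nat.cast_nonneg _
  constructor
  · -- lower bound
    have h1 := low_sub C z W hzm hW.mono b w1 w2 T N k0 y lo hi (fun i => lo3.trans (hlo i))
      (fun i => hW.mono (hlo i)) (fun i => hW.mono (hhi i)) w2T hzhi hm
    have h2 := hx1 C hbox hCT hRow (fun i => z (hi i)) N k0 y false (fun i => (hzhi i).trans zA) zA hk0 hy VT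
    have h3 := hfl T (Om C w1 w2 false b) (fun p _ hpp => Om_card' C w1 w2 κ false b p hpp hCw hκ) k0 y
    have h4 := low_dens C w1 w2 T N b (fun i => z (hi i)) w12 w2T hCw w1a (ε / 8) _ slow hXs hThi hzhi
    set Pi := ∏ p ∈ (Ioc T N).filter Nat.Prime, (1 - (wt (fun i => z (hi i)) p : ℝ) / (p : ℝ)) with hPi
    set Dn := ∏ p ∈ (range (T + 1)).filter Nat.Prime, (1 - ((Om C w1 w2 false b p).card : ℝ) / p) with hDn
    obtain ⟨hPi0, hPi1⟩ := hpr (fun i => z (hi i))
    unfold dev at h2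
    have h5 := (abs_lt.1 h2).1
    have h6 := (abs_le.1 h3).1
    set bc : ℝ := ((base C w1 w2 false T k0 y b).card : ℝ) with hbc
    have h6' : (1 - ε / 4) * (y * Dn) - Kf * ((T : ℝ) + 1) ^ Bf ≤ bc := by
      have : bc = (((Ioc k0 (k0 + y)).filter (fun n => ∀ p ≤ T, p.Prime → n % p ∉ Om C w1 w2 false b p)).card : ℝ) := rfl
      rw [this]
      linarith
    set EE := Kf * ((T : ℝ) + 1) ^ Bf with hEE
    have hEE0 : 0 ≤ EE := by positivity
    have h7 : (1 - ε / 4) * (y * (Dn * Pi)) - EE ≤ bc * Pi := by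
      have h8 := mul_le_mul_of_nonneg_right h6' hPi0
      have h9 : EE * Pi ≤ EE * 1 := mul_le_mul_of_nonneg_left hPi1 hEE0
      nlinarith
    set Q := Sg C w1 * ∏ i, V (z (hi i)) with hQ
    have hQ0 : 0 ≤ Q := mul_nonneg hSg (prod_nonneg fun i _ => (V_pos _).le)
    have h8 : (1 - 3 * ε / 8) * Q ≤ Dn * Pi := by
      refine le_trans (mul_le_mul_of_nonneg_right ?_ hQ0) h4
      have := Real.add_one_le_exp (-tt k D (ε / 8) (ε / (16 * K2 k D)) w1)
      linarith
    have h9 : (1 - ε) * (y * Q) ≤ (1 - ε / 4) * (y * (Dn * Pi)) := by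
      have h10 : y * ((1 - 3 * ε / 8) * Q) ≤ y * (Dn * Pi) := mul_le_mul_of_nonneg_left h8 hy0R
      have h11 : (1 - ε / 4) * (y * ((1 - 3 * ε / 8) * Q)) ≤ (1 - ε / 4) * (y * (Dn * Pi)) :=
        mul_le_mul_of_nonneg_left h10 (by linarith)
      refine le_trans ?_ h11
      have h12 : 0 ≤ y * Q := by positivity
      have h13 : (1 - ε) * (y * Q) ≤ ((1 - ε / 4) * (1 - 3 * ε / 8)) * (y * Q) :=
        mul_le_mul_of_nonneg_right (by nlinarith) h12
      linarith
    have h10 : ((surv (kl C (fun i => z (hi i))) b ((Ioc T N).filter Nat.Prime)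
        (base C w1 w2 false T k0 y b)).card : ℝ) ≤ cnt C (RS z W b) k0 y := by exact_mod_cast h1
    linarith
  · -- upper bound
    have h1 := up_sub C z W hzm hW.mono b w1 w2 T N k0 y lo hi
      (fun i => hW.mono (hlo i)) (fun i => hW.mono (hhi i)) w2T hTlo hm
    have h2 := hx1 C hbox hCT hRow (fun i => z (lo i)) N k0 y true (fun i => (hzlo i).trans zA) zA hk0 hy VT
    have h3 := hfl T (Om C w1 w2 true b) (fun p _ hpp => Om_card' C w1 w2 κ true b p hpp hCw hκ) k0 y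
    have h4 := up_dens C w1 w2 T N b (fun i => z (lo i)) w12 w2T w1a (ε / 8) _ slow hXs hTlo hzlo
    set Pi := ∏ p ∈ (Ioc T N).filter Nat.Prime, (1 - (wt (fun i => z (lo i)) p : ℝ) / (p : ℝ)) with hPi
    set Dn := ∏ p ∈ (range (T + 1)).filter Nat.Prime, (1 - ((Om C w1 w2 true b p).card : ℝ) / p) with hDn
    obtain ⟨hPi0, hPi1⟩ := hpr (fun i => z (lo i))
    unfold dev at h2
    have h5 := (abs_lt.1 h2).2
    have h6 := (abs_le.1 h3).2
    set bc : ℝ := ((base C w1 w2 true T k0 y b).card : ℝ) with hbc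
    have h6' : bc ≤ (1 + ε / 4) * (y * Dn) + Kf * ((T : ℝ) + 1) ^ Bf := by
      have : bc = (((Ioc k0 (k0 + y)).filter (fun n => ∀ p ≤ T, p.Prime → n % p ∉ Om C w1 w2 true b p)).card : ℝ) := rfl
      rw [this]
      linarith
    set EE := Kf * ((T : ℝ) + 1) ^ Bf with hEE
    have hEE0 : 0 ≤ EE := by positivity
    have h7 : bc * Pi ≤ (1 + ε / 4) * (y * (Dn * Pi)) + EE := by
      have h8 := mul_le_mul_of_nonneg_right h6' hPi0
      have h9 : EE * Pi ≤ EE * 1 := mul_le_mul_of_nonneg_left hPi1 hEE0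
      nlinarith
    set Q := Sg C w1 * ∏ i, V (z (lo i)) with hQ
    have hQ0 : 0 ≤ Q := mul_nonneg hSg (prod_nonneg fun i _ => (V_pos _).le)
    have h8 : Dn * Pi ≤ (1 + 3 * ε / 8 + (3 * ε / 8) ^ 2) * Q := by
      refine h4.trans (mul_le_mul_of_nonneg_right ?_ hQ0)
      refine (Real.exp_le_exp.2 htt).trans ?_
      have h9 : |3 * ε / 8| ≤ 1 := by
        rw [abs_of_nonneg (by positivity)]
        linarith
      have := (abs_le.1 (Real.abs_exp_sub_one_sub_id_le h9)).2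
      linarith
    have h9 : (1 + ε / 4) * (y * (Dn * Pi)) ≤ (1 + ε) * (y * Q) := by
      have h10 : y * (Dn * Pi) ≤ y * ((1 + 3 * ε / 8 + (3 * ε / 8) ^ 2) * Q) := mul_le_mul_of_nonneg_left h8 hy0R
      have h11 := mul_le_mul_of_nonneg_left h10 (show 0 ≤ 1 + ε / 4 by positivity)
      refine h11.trans ?_
      have h12 : 0 ≤ y * Q := by positivity
      have h13 : ((1 + ε / 4) * (1 + 3 * ε / 8 + (3 * ε / 8) ^ 2)) * (y * Q) ≤ (1 + ε) * (y * Q) := by
        refine mul_le_mul_of_nonneg_right ?_ h12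
        nlinarith [sq_nonneg ε, mul_pos hε hε]
      linarith
    have h10 : (cnt C (RS z W b) k0 y : ℝ) ≤ ((surv (kl C (fun i => z (lo i))) b ((Ioc T N).filter Nat.Prime)
        (base C w1 w2 true T k0 y b)).card : ℝ) := by exact_mod_cast h1
    linarith


/-- the conclusion of the main theorem for one sample -/
def OKU (z W : ℕ → ℕ) (b : ℕ → ℕ) : Prop :=
  ∀ k D A κ B n : ℕ, 1 ≤ A → ∀ᶠ x : ℕ in atTop, ∀ C ∈ box k D (x ^ A), (∀ p, p.Prime → W (TT (1 / 4) x) < p → Gd C p) →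
    (∀ p, p.Prime → p ≤ W (TT (1 / 4) x) → (rts C p 0).card ≤ κ) → Row C →
    ∀ (k0 y : ℕ) (lo hi : Fin k → ℕ), k0 ≤ x → y ≤ x → (∀ i, TT (1 / 4) x ≤ lo i) → (∀ i, hi i ≤ x ^ A) →
    (∀ m ∈ Ioc k0 (k0 + y), ∀ i, (lo i : ℤ) ≤ evl (C i) m ∧ evl (C i) m ≤ hi i) →
    (1 - 1 / ((n : ℝ) + 1)) * (y * (Sg C (W (TT (1 / 4) x)) * ∏ i, V (z (hi i)))) - x / Real.log x ^ B ≤
        cnt C (RS z W b) k0 y ∧
      cnt C (RS z W b) k0 y ≤
        (1 + 1 / ((n : ℝ) + 1)) * (y * (Sg C (W (TT (1 / 4) x)) * ∏ i, V (z (lo i)))) + x / Real.log x ^ B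

theorem ae_OKU (h : Model P a) (z W : ℕ → ℕ) (hz : Limit z) (hW : Cut W) : ∀ᵐ ω ∂P, OKU z W (fun p => a p ω) := by
  unfold OKU
  simp only [ae_all_iff]
  intro k D A κ B n hA
  exact engine' h z W hz hW k D A κ B hA (1 / 4) (1 / ((n : ℝ) + 1)) (by norm_num) (by norm_num) (by positivity) (by
    rw [div_le_one (by positivity)]
    linarith [(Nat.cast_nonneg n : (0 : ℝ) ≤ n)])

end Pool.Agent.H559.PV
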