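import Mathlib

set_option autoImplicit false

/-! # The inequality for one piece -/

open Finset Filter Topology

namespace Pool.Agent.H559.UB

/-- the relative error of one piece -/
noncomputable def hh (k : ℕ) (t : ℝ) : ℝ := 4 ^ k * ((1 + t) ^ (k + 1) / (1 - t) ^ k - (1 - t) ^ (k + 1) / (1 + 4 * t) ^ k)

theorem hh_small (k : ℕ) (ε : ℝ) (hε : 0 < ε) : ∃ t : ℝ, 0 < t ∧ t ≤ 1 / 2 ∧ hh k t ≤ ε := by
  have hc : ContinuousAt (hh k) 0 := by
    unfold hh
    have h1 : ContinuousAt (fun t : ℝ => (1 + t) ^ (k + 1)) 0 := by fun_prop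
    have h2 : ContinuousAt (fun t : ℝ => (1 - t) ^ k) 0 := by fun_prop
    have h3 : ContinuousAt (fun t : ℝ => (1 - t) ^ (k + 1)) 0 := by fun_prop
    have h4 : ContinuousAt (fun t : ℝ => (1 + 4 * t) ^ k) 0 := by fun_prop
    exact continuousAt_const.mul ((h1.div h2 (by norm_num)).sub (h3.div h4 (by norm_num)))
  have h0 : hh k 0 = 0 := by
    unfold hh
    norm_num
  have h1 : ∀ᶠ t in 𝓝 (0 : ℝ), hh k t < ε := by
    have := hc.tendsto
    rw [h0] at this
    exact this.eventually_lt_const hε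
  obtain ⟨d, hd, h2⟩ := Metric.eventually_nhds_iff.1 h1
  refine ⟨min (d / 2) (1 / 2), by positivity, min_le_right _ _, (h2 ?_).le⟩
  rw [Real.dist_eq, sub_zero, abs_of_nonneg (by positivity)]
  exact (min_le_left _ _).trans_lt (by linarith)

theorem piece_ineq (k : ℕ) (t : ℝ) (ht0 : 0 < t) (ht1 : t ≤ 1 / 2) (τ : Fin k → ℝ) (hτ : ∀ i, 1 / 4 ≤ τ i) (L : ℝ)
    (hL : 0 < L) (y S0 S : ℝ) (hy : 0 ≤ y) (hS0 : 0 ≤ S0) (hS1 : (1 - t) * S0 ≤ S) (hS2 : S ≤ (1 + t) * S0)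
    (Vlo Vhi : Fin k → ℝ) (hlo0 : ∀ i, 0 ≤ Vlo i) (hlo : ∀ i, Vlo i ≤ (1 + t) / (τ i * L))
    (hhi : ∀ i, (1 - t) / ((τ i + t) * L) ≤ Vhi i) (cnt r : ℝ) (hU : cnt ≤ (1 + t) * (y * (S0 * ∏ i, Vlo i)) + r)
    (hLw : (1 - t) * (y * (S0 * ∏ i, Vhi i)) - r ≤ cnt) (Ws : ℝ) (hw1 : y * ∏ i, (1 / ((τ i + t) * L)) ≤ Ws)
    (hw2 : Ws ≤ y * ∏ i, (1 / ((1 - t) * τ i * L))) :
    |cnt - S * Ws| ≤ hh k t * S0 / L ^ k * y + r := by
  set Q : ℝ := ∏ i, (1 / (τ i * L)) with hQ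
  have hτ0 : ∀ i, 0 < τ i := fun i => lt_of_lt_of_le (by norm_num) (hτ i)
  have hQ0 : 0 ≤ Q := prod_nonneg fun i _ => by
    have := hτ0 i
    positivity
  have hQ1 : Q ≤ 4 ^ k / L ^ k := by
    have h1 : ∏ _i : Fin k, (4 / L) = 4 ^ k / L ^ k := by
      rw [prod_const, card_univ, Fintype.card_fin, div_pow]
    rw [← h1]
    refine prod_le_prod (fun i _ => by have := hτ0 i; positivity) fun i _ => ?_
    have := hτ i
    have := hτ0 i
    rw [div_le_div_iff₀ (by positivity) hL]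
    nlinarith
  have h1t : 0 < 1 - t := by linarith
  have h4t : 0 < 1 + 4 * t := by linarith
  have hfac : ∀ i, 1 / ((1 + 4 * t) * (τ i * L)) ≤ 1 / ((τ i + t) * L) := by
    intro i
    have := hτ i
    have := hτ0 i
    refine one_div_le_one_div_of_le (by positivity) ?_
    have h5 : t ≤ 4 * t * τ i := by nlinarith
    have h6 : (τ i + t) * L ≤ (τ i + 4 * t * τ i) * L := mul_le_mul_of_nonneg_right (by linarith) hL.le
    linarith
  have c1 : ∏ i, Vlo i ≤ (1 + t) ^ k * Q := by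
    have h1 : ∏ i, ((1 + t) / (τ i * L)) = (1 + t) ^ k * Q := by
      rw [hQ]
      calc ∏ i, ((1 + t) / (τ i * L)) = ∏ i : Fin k, ((1 + t) * (1 / (τ i * L))) :=
            prod_congr rfl fun i _ => (mul_one_div _ _).symm
        _ = _ := by rw [prod_mul_distrib, prod_const, card_univ, Fintype.card_fin]
    rw [← h1]
    exact prod_le_prod (fun i _ => hlo0 i) fun i _ => hlo i
  have c2 : (1 - t) ^ k / (1 + 4 * t) ^ k * Q ≤ ∏ i, Vhi i := by
    have h1 : ∏ i, ((1 - t) / ((1 + 4 * t) * (τ i * L))) = (1 - t) ^ k / (1 + 4 * t) ^ k * Q := by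
      rw [hQ, ← div_pow]
      calc ∏ i, ((1 - t) / ((1 + 4 * t) * (τ i * L))) = ∏ i : Fin k, ((1 - t) / (1 + 4 * t) * (1 / (τ i * L))) := by
            refine prod_congr rfl fun i _ => ?_
            have := hτ0 i
            field_simp
        _ = _ := by rw [prod_mul_distrib, prod_const, card_univ, Fintype.card_fin]
    rw [← h1]
    refine prod_le_prod (fun i _ => by have := hτ0 i; positivity) fun i _ => ?_
    refine le_trans ?_ (hhi i)
    have := hfac i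
    calc (1 - t) / ((1 + 4 * t) * (τ i * L)) = (1 - t) * (1 / ((1 + 4 * t) * (τ i * L))) := by ring
      _ ≤ (1 - t) * (1 / ((τ i + t) * L)) := mul_le_mul_of_nonneg_left this h1t.le
      _ = _ := by ring
  have c3 : y * (Q / (1 + 4 * t) ^ k) ≤ Ws := by
    refine le_trans (mul_le_mul_of_nonneg_left ?_ hy) hw1
    have h1 : ∏ i, (1 / ((1 + 4 * t) * (τ i * L))) = Q / (1 + 4 * t) ^ k := by
      rw [hQ]
      calc ∏ i, (1 / ((1 + 4 * t) * (τ i * L))) = ∏ i : Fin k, ((1 / (τ i * L)) / (1 + 4 * t)) := by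
            refine prod_congr rfl fun i _ => ?_
            have := hτ0 i
            field_simp
        _ = _ := by rw [prod_div_distrib, prod_const, card_univ, Fintype.card_fin]
    rw [← h1]
    exact prod_le_prod (fun i _ => by have := hτ0 i; positivity) fun i _ => hfac i
  have c4 : Ws ≤ y * (Q / (1 - t) ^ k) := by
    refine hw2.trans (mul_le_mul_of_nonneg_left (le_of_eq ?_) hy)
    rw [hQ]
    calc ∏ i, (1 / ((1 - t) * τ i * L)) = ∏ i : Fin k, ((1 / (τ i * L)) / (1 - t)) := by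
          refine prod_congr rfl fun i _ => ?_
          have := hτ0 i
          field_simp
      _ = _ := by rw [prod_div_distrib, prod_const, card_univ, Fintype.card_fin]
  set M : ℝ := y * S0 * Q with hM
  have hM0 : 0 ≤ M := by positivity
  have p1 : 1 ≤ 1 / (1 - t) ^ k := by
    rw [one_le_div (by positivity)]
    exact pow_le_one₀ h1t.le (by linarith)
  have p2 : (1 - t) ^ (k + 1) ≤ 1 - t := by
    rw [pow_succ]
    exact mul_le_of_le_one_left h1t.le (pow_le_one₀ h1t.le (by linarith))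
  have hP4 : 0 < (1 + 4 * t) ^ k := by positivity
  have hP1 : 0 < (1 - t) ^ k := by positivity
  have hWs0 : 0 ≤ Ws := le_trans (by positivity) c3
  have hS00 : 0 ≤ S := le_trans (by positivity) hS1
  have up : cnt - S * Ws ≤ M * ((1 + t) ^ (k + 1) / (1 - t) ^ k - (1 - t) ^ (k + 1) / (1 + 4 * t) ^ k) + r := by
    have a1 : cnt ≤ (1 + t) ^ (k + 1) * M + r := by
      refine hU.trans ?_
      have : (1 + t) * (y * (S0 * ∏ i, Vlo i)) ≤ (1 + t) * (y * (S0 * ((1 + t) ^ k * Q))) := by gcongr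
      have e : (1 + t) * (y * (S0 * ((1 + t) ^ k * Q))) = (1 + t) ^ (k + 1) * M := by
        rw [hM, pow_succ]
        ring
      linarith
    have a2 : (1 - t) * M / (1 + 4 * t) ^ k ≤ S * Ws := by
      calc (1 - t) * M / (1 + 4 * t) ^ k = ((1 - t) * S0) * (y * (Q / (1 + 4 * t) ^ k)) := by
            rw [hM]
            ring
        _ ≤ S * Ws := mul_le_mul hS1 c3 (by positivity) hS00
    have a3 : (1 + t) ^ (k + 1) * M ≤ M * ((1 + t) ^ (k + 1) / (1 - t) ^ k) := by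
      calc (1 + t) ^ (k + 1) * M = M * (1 + t) ^ (k + 1) * 1 := by ring
        _ ≤ M * (1 + t) ^ (k + 1) * (1 / (1 - t) ^ k) := by
            gcongr
        _ = _ := by ring
    have a4 : M * ((1 - t) ^ (k + 1) / (1 + 4 * t) ^ k) ≤ (1 - t) * M / (1 + 4 * t) ^ k := by
      calc M * ((1 - t) ^ (k + 1) / (1 + 4 * t) ^ k) ≤ M * ((1 - t) / (1 + 4 * t) ^ k) := by gcongr
        _ = _ := by ring
    rw [mul_sub]
    linarith
  have lo : S * Ws - cnt ≤ M * ((1 + t) ^ (k + 1) / (1 - t) ^ k - (1 - t) ^ (k + 1) / (1 + 4 * t) ^ k) + r := by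
    have a1 : (1 - t) ^ (k + 1) / (1 + 4 * t) ^ k * M - r ≤ cnt := by
      refine le_trans ?_ hLw
      have h5 : (1 - t) * (y * (S0 * ((1 - t) ^ k / (1 + 4 * t) ^ k * Q))) ≤ (1 - t) * (y * (S0 * ∏ i, Vhi i)) := by gcongr
      have e : (1 - t) * (y * (S0 * ((1 - t) ^ k / (1 + 4 * t) ^ k * Q))) = (1 - t) ^ (k + 1) / (1 + 4 * t) ^ k * M := by
        rw [hM, pow_succ]
        ring
      linarith
    have a2 : S * Ws ≤ (1 + t) * M / (1 - t) ^ k := by
      calc S * Ws ≤ ((1 + t) * S0) * (y * (Q / (1 - t) ^ k)) := mul_le_mul hS2 c4 hWs0 (by positivity)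
        _ = _ := by
          rw [hM]
          ring
    have a3 : (1 + t) * M / (1 - t) ^ k ≤ M * ((1 + t) ^ (k + 1) / (1 - t) ^ k) := by
      have h6 : 1 + t ≤ (1 + t) ^ (k + 1) := le_self_pow₀ (by linarith) (by omega)
      calc (1 + t) * M / (1 - t) ^ k = M * ((1 + t) / (1 - t) ^ k) := by ring
        _ ≤ M * ((1 + t) ^ (k + 1) / (1 - t) ^ k) := by gcongr
    rw [mul_sub]
    linarith
  have hd : 0 ≤ (1 + t) ^ (k + 1) / (1 - t) ^ k - (1 - t) ^ (k + 1) / (1 + 4 * t) ^ k := by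
    have b1 : (1 - t) ^ (k + 1) / (1 + 4 * t) ^ k ≤ 1 := by
      rw [div_le_one hP4]
      calc (1 - t) ^ (k + 1) ≤ 1 := pow_le_one₀ h1t.le (by linarith)
        _ ≤ (1 + 4 * t) ^ k := one_le_pow₀ (by linarith)
    have b2 : 1 ≤ (1 + t) ^ (k + 1) / (1 - t) ^ k := by
      rw [one_le_div hP1]
      calc (1 - t) ^ k ≤ 1 := pow_le_one₀ h1t.le (by linarith)
        _ ≤ (1 + t) ^ (k + 1) := one_le_pow₀ (by linarith)
    linarith
  have hfin : M * ((1 + t) ^ (k + 1) / (1 - t) ^ k - (1 - t) ^ (k + 1) / (1 + 4 * t) ^ k) ≤ hh k t * S0 / L ^ k * y := by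
    unfold hh
    calc _ ≤ (y * S0 * (4 ^ k / L ^ k)) * ((1 + t) ^ (k + 1) / (1 - t) ^ k - (1 - t) ^ (k + 1) / (1 + 4 * t) ^ k) := by
          refine mul_le_mul_of_nonneg_right ?_ hd
          rw [hM]
          gcongr
      _ = _ := by ring
  rw [abs_le]
  constructor <;> linarith

end Pool.Agent.H559.UB
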