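import Pool.Agent.H559.UB.Eng
import Pool.Agent.H559.US.Base
import Pool.Agent.H559.HY.BH

set_option autoImplicit false

/-! # The local densities -/

open Finset Filter Topology Polynomial
open Pool.Agent.T2H32.BF (V V_pos V_anti V_ratio recip_le mertens)
open Pool.Agent.H559.BS (Limit TT TT_le TT_ge TT_top log_TT V_TT log_pow_le log_top g g_pos)
open Pool.Agent.H559.HY (Arr evl rts rts_sub arr evl_arr cls_eq_iff Sg cmpA cmpB)

namespace Pool.Agent.H559.UB

variable {k : ℕ}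

/-- the number of the zeros modulo `p` -/
def omg (F : Fin k → ℤ[X]) (p : ℕ) : ℕ :=
  ((range p).filter fun n : ℕ => (p : ℤ) ∣ ∏ i, (F i).eval (n : ℤ)).card

/-- the truncated singular series -/
noncomputable def SS (F : Fin k → ℤ[X]) (w : ℕ) : ℝ :=
  ∏ p ∈ (range (w + 1)).filter Nat.Prime, (1 - (omg F p : ℝ) / p) / (1 - 1 / (p : ℝ)) ^ k

theorem rts_omg (D : ℕ) (F G : Fin k → ℤ[X]) (hG : ∀ i, G i = F i ∨ G i = -F i) (hD : ∀ i, (G i).natDegree ≤ D)
    (p : ℕ) (hp : p.Prime) : (rts (arr D G) p 0).card = omg F p := by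
  unfold rts omg
  congr 1
  refine filter_congr fun s _ => ?_
  have hprime : Prime (p : ℤ) := Nat.prime_iff_prime_int.1 hp
  rw [hprime.dvd_finsetProd_iff]
  constructor
  · rintro ⟨i, h1⟩
    have h2 := (cls_eq_iff _ _ p s 0 hp.pos hp.pos).1 h1
    rw [evl_arr D G hD, Nat.cast_zero, sub_zero] at h2
    refine ⟨i, mem_univ _, ?_⟩
    rcases hG i with h | h
    · rwa [h] at h2
    · rw [h, eval_neg] at h2
      exact (dvd_neg).1 h2
  · rintro ⟨i, _, h1⟩
    refine ⟨i, (cls_eq_iff _ _ p s 0 hp.pos hp.pos).2 ?_⟩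
    rw [evl_arr D G hD, Nat.cast_zero, sub_zero]
    rcases hG i with h | h
    · rwa [h]
    · rw [h, eval_neg]
      exact (dvd_neg).2 h1

theorem Sg_SS (D : ℕ) (F G : Fin k → ℤ[X]) (hG : ∀ i, G i = F i ∨ G i = -F i) (hD : ∀ i, (G i).natDegree ≤ D)
    (w : ℕ) : Sg (arr D G) w = SS F w := by
  unfold Sg SS
  refine prod_congr rfl fun p hp => ?_
  rw [rts_omg D F G hG hD p (mem_filter.1 hp).2]

theorem omg_le (D : ℕ) (F : Fin k → ℤ[X]) (hD : ∀ i, (F i).natDegree ≤ D) (p : ℕ) (hp : p.Prime) (h : omg F p < p) :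
    omg F p ≤ k * D := by
  classical
  have hprime : Prime (p : ℤ) := Nat.prime_iff_prime_int.1 hp
  have hFD : Pool.Agent.H559.US.FD (arr D F) p := by
    by_contra hcon
    unfold Pool.Agent.H559.US.FD at hcon
    push Not at hcon
    have h1 : (range p).filter (fun n : ℕ => (p : ℤ) ∣ ∏ i, (F i).eval (n : ℤ)) = range p := by
      refine filter_true_of_mem fun n _ => ?_
      obtain ⟨i, hi⟩ := hcon n
      rw [evl_arr D F hD] at hi
      exact hprime.dvd_finsetProd_iff _ |>.2 ⟨i, mem_univ _, hi⟩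
    unfold omg at h
    rw [h1, card_range] at h
    exact lt_irrefl _ h
  have h1 : (range p).filter (fun n : ℕ => (p : ℤ) ∣ ∏ i, (F i).eval (n : ℤ)) ⊆
      (univ : Finset (Fin k)).biUnion (fun i => (range p).filter (fun r => (p : ℤ) ∣ evl (arr D F i) r)) := by
    intro n hn
    rw [mem_filter] at hn
    obtain ⟨i, _, hi⟩ := (hprime.dvd_finsetProd_iff _).1 hn.2
    rw [mem_biUnion]
    refine ⟨i, mem_univ _, mem_filter.2 ⟨hn.1, ?_⟩⟩
    rw [evl_arr D F hD]
    exact hi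
  unfold omg
  refine (card_le_card h1).trans (card_biUnion_le.trans ?_)
  calc ∑ i, ((range p).filter (fun r => (p : ℤ) ∣ evl (arr D F i) r)).card ≤ ∑ _i : Fin k, D :=
        sum_le_sum fun i _ => Pool.Agent.H559.US.rt0_le (arr D F) p hp hFD i
    _ = k * D := by simp

/-- a lower bound for the truncated singular series -/
theorem SS_low (D : ℕ) (F : Fin k → ℤ[X]) (hD : ∀ i, (F i).natDegree ≤ D) (hadm : ∀ p, p.Prime → omg F p < p) (w : ℕ) :
    (1 / (2 * ((k * D : ℕ) : ℝ) + 1)) ^ (2 * (k * D) + 1) * V w ^ (2 * (k * D)) ≤ SS F w := by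
  refine (Pool.Agent.H559.US.prod_low (k * D) w (omg F) fun p _ hp => ⟨omg_le D F hD p hp (hadm p hp), hadm p hp⟩).trans ?_
  unfold SS
  refine prod_le_prod (fun p hp => ?_) fun p hp => ?_
  · have hpp := (mem_filter.1 hp).2
    have hp0 : (0 : ℝ) < p := by exact_mod_cast hpp.pos
    have h1 : (omg F p : ℝ) ≤ p := by exact_mod_cast (hadm p hpp).le
    have : (omg F p : ℝ) / p ≤ 1 := by rwa [div_le_one hp0]
    linarith
  · have hpp := (mem_filter.1 hp).2
    have hp0 : (0 : ℝ) < p := by exact_mod_cast hpp.pos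
    have hp2 : (2 : ℝ) ≤ p := by exact_mod_cast hpp.two_le
    have h1 : (omg F p : ℝ) ≤ p := by exact_mod_cast (hadm p hpp).le
    have h2 : (omg F p : ℝ) / p ≤ 1 := by rwa [div_le_one hp0]
    have h3 : 1 / (p : ℝ) ≤ 1 / 2 := one_div_le_one_div_of_le (by norm_num) hp2
    have h4 : 0 < 1 / (p : ℝ) := by positivity
    rw [le_div_iff₀ (pow_pos (by linarith) k)]
    exact mul_le_of_le_one_right (by linarith) (pow_le_one₀ (by linarith) (by linarith))

theorem SS_nonneg (F : Fin k → ℤ[X]) (hadm : ∀ p, p.Prime → omg F p < p) (w : ℕ) : 0 ≤ SS F w := by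
  unfold SS
  refine prod_nonneg fun p hp => ?_
  have hpp := (mem_filter.1 hp).2
  have hp0 : (0 : ℝ) < p := by exact_mod_cast hpp.pos
  have hp2 : (2 : ℝ) ≤ p := by exact_mod_cast hpp.two_le
  have h1 : (omg F p : ℝ) ≤ p := by exact_mod_cast (hadm p hpp).le
  have h2 : (omg F p : ℝ) / p ≤ 1 := by rwa [div_le_one hp0]
  have h3 : 1 / (p : ℝ) ≤ 1 / 2 := one_div_le_one_div_of_le (by norm_num) hp2
  exact div_nonneg (by linarith) (pow_nonneg (by linarith) k)

/-- an upper bound for the truncated singular series -/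
theorem SS_up (F : Fin k → ℤ[X]) (hadm : ∀ p, p.Prime → omg F p < p) (w : ℕ) : SS F w ≤ 1 / V w ^ k := by
  have h1 : 1 / V w ^ k = ∏ p ∈ (range (w + 1)).filter Nat.Prime, 1 / (1 - 1 / (p : ℝ)) ^ k := by
    rw [prod_div_distrib, prod_const_one, prod_pow]
    rfl
  rw [h1]
  unfold SS
  refine prod_le_prod (fun p hp => ?_) fun p hp => ?_
  · have hpp := (mem_filter.1 hp).2
    have hp0 : (0 : ℝ) < p := by exact_mod_cast hpp.pos
    have hp2 : (2 : ℝ) ≤ p := by exact_mod_cast hpp.two_le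
    have h1 : (omg F p : ℝ) ≤ p := by exact_mod_cast (hadm p hpp).le
    have h2 : (omg F p : ℝ) / p ≤ 1 := by rwa [div_le_one hp0]
    have h3 : 1 / (p : ℝ) ≤ 1 / 2 := one_div_le_one_div_of_le (by norm_num) hp2
    exact div_nonneg (by linarith) (pow_nonneg (by linarith) k)
  · have hpp := (mem_filter.1 hp).2
    have hp0 : (0 : ℝ) < p := by exact_mod_cast hpp.pos
    have hp2 : (2 : ℝ) ≤ p := by exact_mod_cast hpp.two_le
    have h2 : 0 ≤ (omg F p : ℝ) / p := by positivity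
    have h3 : 1 / (p : ℝ) ≤ 1 / 2 := one_div_le_one_div_of_le (by norm_num) hp2
    exact div_le_div_of_nonneg_right (by linarith) (pow_nonneg (by linarith) k)

theorem SS_split (F : Fin k → ℤ[X]) (u v : ℕ) (h : u ≤ v) :
    SS F v = SS F u * ((∏ p ∈ (Ioc u v).filter Nat.Prime, (1 - (omg F p : ℝ) / p)) /
      ∏ p ∈ (Ioc u v).filter Nat.Prime, (1 - 1 / (p : ℝ)) ^ k) := by
  unfold SS
  rw [← prod_div_distrib, ← prod_union]
  · refine prod_congr ?_ fun _ _ => rfl
    rw [← filter_union]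
    congr 1
    ext p
    simp only [mem_union, mem_range, mem_Ioc]
    omega
  · refine disjoint_filter_filter ?_
    rw [disjoint_left]
    intro p h1 h2
    rw [mem_range] at h1
    rw [mem_Ioc] at h2
    omega

/-- the change of the cut of the singular series -/
theorem SS_cmp (D : ℕ) (F : Fin k → ℤ[X]) (hD : ∀ i, (F i).natDegree ≤ D) (hadm : ∀ p, p.Prime → omg F p < p)
    (u v : ℕ) (huv : u ≤ v) (hu : 1 ≤ u) (hu2 : 2 * ((k * D : ℕ) : ℝ) ≤ u) (η : ℝ) (hη : Real.log (V u / V v) ≤ η) :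
    Real.exp (-((k * D : ℕ) * η + 2 * ((k * D : ℕ) : ℝ) ^ 2 / u)) * SS F u ≤ SS F v ∧
      SS F v ≤ Real.exp (k * η + 2 * k / u) * SS F u := by
  have hS0 := SS_nonneg F hadm u
  have hrec := (recip_le u v huv).trans hη
  have hω : ∀ p ∈ (Ioc u v).filter Nat.Prime, omg F p ≤ k * D := fun p hp =>
    omg_le D F hD p (mem_filter.1 hp).2 (hadm p (mem_filter.1 hp).2)
  have hV0 : 0 < ∏ p ∈ (Ioc u v).filter Nat.Prime, (1 - 1 / (p : ℝ)) ^ k := by
    refine prod_pos fun p hp => ?_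
    have hp2 : (2 : ℝ) ≤ p := by exact_mod_cast (mem_filter.1 hp).2.two_le
    have h3 : 1 / (p : ℝ) ≤ 1 / 2 := one_div_le_one_div_of_le (by norm_num) hp2
    exact pow_pos (by linarith) k
  rw [SS_split F u v huv]
  constructor
  · have h1 := cmpB u v hu (omg F) (fun _ => k) ((k * D : ℕ) : ℝ) (fun p hp => by exact_mod_cast hω p hp)
      (Nat.cast_nonneg _) hu2
    rw [mul_comm]
    refine mul_le_mul_of_nonneg_left ?_ hS0
    rw [le_div_iff₀ hV0]
    refine le_trans (mul_le_mul_of_nonneg_right (Real.exp_le_exp.2 ?_) hV0.le) h1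
    have h2 : ∑ p ∈ (Ioc u v).filter Nat.Prime, ((omg F p : ℝ) - k) / p ≤ ((k * D : ℕ) : ℝ) * η := by
      calc ∑ p ∈ (Ioc u v).filter Nat.Prime, ((omg F p : ℝ) - k) / p ≤
            ∑ p ∈ (Ioc u v).filter Nat.Prime, ((k * D : ℕ) : ℝ) * (1 / (p : ℝ)) := by
            refine sum_le_sum fun p hp => ?_
            have h3 : (omg F p : ℝ) ≤ ((k * D : ℕ) : ℝ) := by exact_mod_cast hω p hp
            have h4 : (0 : ℝ) ≤ k := Nat.cast_nonneg _
            rw [div_eq_mul_one_div]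
            exact mul_le_mul_of_nonneg_right (by linarith) (by positivity)
        _ = ((k * D : ℕ) : ℝ) * ∑ p ∈ (Ioc u v).filter Nat.Prime, 1 / (p : ℝ) := by rw [mul_sum]
        _ ≤ _ := mul_le_mul_of_nonneg_left hrec (Nat.cast_nonneg _)
    linarith
  · have h1 := cmpA u v hu (omg F) (fun _ => k) (k : ℝ) (fun p hp => (hadm p (mem_filter.1 hp).2).le)
      (fun _ _ => le_rfl) (Nat.cast_nonneg _)
    rw [mul_comm (Real.exp _)]
    refine mul_le_mul_of_nonneg_left ?_ hS0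
    rw [div_le_iff₀ hV0]
    refine h1.trans (mul_le_mul_of_nonneg_right (Real.exp_le_exp.2 ?_) hV0.le)
    have h2 : -∑ p ∈ (Ioc u v).filter Nat.Prime, ((omg F p : ℝ) - k) / p ≤ k * η := by
      rw [← sum_neg_distrib]
      calc ∑ p ∈ (Ioc u v).filter Nat.Prime, -(((omg F p : ℝ) - k) / p) ≤
            ∑ p ∈ (Ioc u v).filter Nat.Prime, (k : ℝ) * (1 / (p : ℝ)) := by
            refine sum_le_sum fun p hp => ?_
            have h3 : (0 : ℝ) ≤ omg F p := Nat.cast_nonneg _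
            rw [← neg_div, neg_sub, div_eq_mul_one_div]
            exact mul_le_mul_of_nonneg_right (by linarith) (by positivity)
        _ = (k : ℝ) * ∑ p ∈ (Ioc u v).filter Nat.Prime, 1 / (p : ℝ) := by rw [mul_sum]
        _ ≤ _ := mul_le_mul_of_nonneg_left hrec (Nat.cast_nonneg _)
    linarith

end Pool.Agent.H559.UB
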