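import Pool.Agent.H559.UB.Whole

set_option autoImplicit false

/-! # The uniform formula of Bateman and Horn -/

open Finset Filter Topology Polynomial
open Pool.Agent.T2H32.BF (V V_pos V_anti V_ratio recip_le mertens)
open Pool.Agent.H559.BS (Limit TT TT_le TT_ge TT_top log_TT V_TT log_pow_le log_top g g_pos)
open Pool.Agent.H559.HY (Arr evl rts rts_sub arr evl_arr Sg cnt RS box mem_box WW cut_WW log_TT_lim Cut WW_mono)
open Pool.Agent.H559.PV (Gd Row OKU)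

namespace Pool.Agent.H559.UB

variable {k : ℕ}

theorem Vz_TT (z : ℕ → ℕ) (hz : Limit z) (τ : ℝ) (hτ : 0 < τ) :
    Tendsto (fun x : ℕ => V (z (TT τ x)) * Real.log x) atTop (𝓝 (1 / τ)) := by
  have h1 := hz.2.comp (TT_top τ hτ)
  have h2 := log_TT_lim τ hτ
  have h3 := h1.div h2 hτ.ne'
  refine h3.congr' ?_
  filter_upwards [log_top.eventually_ge_atTop 1, h2.eventually_const_lt (show τ / 2 < τ by linarith)] with x h4 h5
  simp only [Function.comp_apply, Pi.div_apply]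
  have h6 : 0 < Real.log x := by linarith
  have h7 : 0 < Real.log (TT τ x) := by
    rw [lt_div_iff₀ h6] at h5
    exact lt_trans (by positivity) h5
  field_simp

theorem thr_ev (z : ℕ → ℕ) (hz : Limit z) (t : ℝ) (ht0 : 0 < t) (J : ℕ) :
    ∀ᶠ x : ℕ in atTop, ∀ j ≤ J, (1 - t) / ((1 / 4 + j * t) * Real.log x) ≤ V (z (TT (1 / 4 + j * t) x)) ∧
    V (z (TT (1 / 4 + j * t) x)) ≤ (1 + t) / ((1 / 4 + j * t) * Real.log x) ∧
    (1 - t) * (1 / 4 + j * t) * Real.log x ≤ Real.log (TT (1 / 4 + j * t) x) ∧ 3 ≤ TT (1 / 4 + j * t) x := by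
  suffices h : ∀ᶠ x : ℕ in atTop, ∀ j ∈ range (J + 1), (1 - t) / ((1 / 4 + j * t) * Real.log x) ≤ V (z (TT (1 / 4 + j * t) x)) ∧
      V (z (TT (1 / 4 + j * t) x)) ≤ (1 + t) / ((1 / 4 + j * t) * Real.log x) ∧
      (1 - t) * (1 / 4 + j * t) * Real.log x ≤ Real.log (TT (1 / 4 + j * t) x) ∧ 3 ≤ TT (1 / 4 + j * t) x by
    filter_upwards [h] with x hx j hj
    exact hx j (mem_range.2 (by omega))
  rw [Filter.eventually_all_finset]
  intro j _
  set τ : ℝ := 1 / 4 + j * t with hτ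
  have hτ0 : 0 < τ := by positivity
  have h1 := Vz_TT z hz τ hτ0
  have h2 := log_TT_lim τ hτ0
  filter_upwards [h1.eventually_lt_const (show 1 / τ < (1 + t) / τ by
      rw [div_lt_div_iff_of_pos_right hτ0]; linarith),
    h1.eventually_const_lt (show (1 - t) / τ < 1 / τ by rw [div_lt_div_iff_of_pos_right hτ0]; linarith),
    h2.eventually_const_lt (show (1 - t) * τ < τ by nlinarith), log_top.eventually_ge_atTop 1,
    (TT_top τ hτ0).eventually_ge_atTop 3] with x a1 a2 a3 a4 a5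
  have hL : 0 < Real.log x := by linarith
  refine ⟨?_, ?_, ?_, a5⟩
  · rw [← div_div, div_le_iff₀ hL]
    exact a2.le
  · rw [← div_div, le_div_iff₀ hL]
    exact a1.le
  · rw [lt_div_iff₀ hL] at a3
    exact a3.le

theorem cut_ev (c : ℝ) (hc : 1 < c) : ∀ᶠ x : ℕ in atTop, Real.log x ≤ WW c (TT (1 / 4) x) := by
  have h1 := (cut_WW c hc).top.comp (TT_top (1 / 4) (by norm_num))
  have h2 := log_TT_lim (1 / 4) (by norm_num)
  filter_upwards [h1.eventually_ge_atTop 8, h2.eventually_const_lt (show (1 / 8 : ℝ) < 1 / 4 by norm_num),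
    log_top.eventually_ge_atTop 1] with x a1 a2 a3
  simp only [Function.comp_apply] at a1
  have hL : 0 < Real.log x := by linarith
  rw [lt_div_iff₀ hL] at a2
  have h3 : 0 < Real.log (TT (1 / 4) x) := lt_trans (by positivity) a2
  rw [le_div_iff₀ h3] at a1
  linarith

theorem sr_ev (c : ℝ) (hc : 1 < c) (D A : ℕ) (t : ℝ) (ht0 : 0 < t) :
    ∀ᶠ x : ℕ in atTop, ∀ F : Fin k → ℤ[X], Cls D A x F →
      (1 - t) * SS F (WW c (TT (1 / 4) x)) ≤ SS F (WW c x) ∧ SS F (WW c x) ≤ (1 + t) * SS F (WW c (TT (1 / 4) x)) := by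
  have hcut := cut_WW c hc
  have hs := hcut.slow 1 (1 / 4) le_rfl (by norm_num) (by norm_num)
  simp only [pow_one] at hs
  have hlog : Tendsto (fun x : ℕ => Real.log (V (WW c (TT (1 / 4) x)) / V (WW c x))) atTop (𝓝 0) := by
    have := (Real.continuousAt_log (x := 1) one_ne_zero).tendsto.comp hs
    rwa [Real.log_one] at this
  have hw : Tendsto (fun x : ℕ => ((WW c (TT (1 / 4) x) : ℕ) : ℝ)) atTop atTop := by
    refine tendsto_atTop_mono' atTop ?_ log_top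
    filter_upwards [cut_ev c hc] with x hx
    exact hx
  set κ : ℝ := ((k * D : ℕ) : ℝ) with hκ
  have h1 : Tendsto (fun x : ℕ => κ * Real.log (V (WW c (TT (1 / 4) x)) / V (WW c x)) +
      2 * κ ^ 2 / ((WW c (TT (1 / 4) x) : ℕ) : ℝ)) atTop (𝓝 0) := by
    have := (hlog.const_mul κ).add (tendsto_const_nhds (x := 2 * κ ^ 2).div_atTop hw)
    rwa [mul_zero, add_zero] at this
  have h2 : Tendsto (fun x : ℕ => k * Real.log (V (WW c (TT (1 / 4) x)) / V (WW c x)) +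
      2 * k / ((WW c (TT (1 / 4) x) : ℕ) : ℝ)) atTop (𝓝 0) := by
    have := (hlog.const_mul (k : ℝ)).add (tendsto_const_nhds (x := 2 * (k : ℝ)).div_atTop hw)
    rwa [mul_zero, add_zero] at this
  filter_upwards [h1.eventually_lt_const ht0, h2.eventually_lt_const (Real.log_pos (by linarith : (1 : ℝ) < 1 + t)),
    hw.eventually_ge_atTop (max 1 (2 * κ)), eventually_ge_atTop 1] with x a1 a2 a3 a4 F hF
  have hx0 : (0 : ℝ) < x := by exact_mod_cast a4
  have hTx : TT (1 / 4) x ≤ x := by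
    have h3 := TT_le (1 / 4) x
    have h4 : (x : ℝ) ^ (1 / 4 : ℝ) ≤ (x : ℝ) ^ (1 : ℝ) :=
      Real.rpow_le_rpow_of_exponent_le (by exact_mod_cast a4) (by norm_num)
    rw [Real.rpow_one] at h4
    exact_mod_cast h3.trans h4
  have hS0 := SS_nonneg F hF.adm (WW c (TT (1 / 4) x))
  obtain ⟨b1, b2⟩ := SS_cmp D F hF.deg hF.adm (WW c (TT (1 / 4) x)) (WW c x) (WW_mono c (by linarith) hTx)
    (by exact_mod_cast (le_max_left _ _).trans a3) ((le_max_right _ _).trans a3) _ le_rfl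
  constructor
  · refine le_trans (mul_le_mul_of_nonneg_right ?_ hS0) b1
    have := Real.add_one_le_exp (-(κ * Real.log (V (WW c (TT (1 / 4) x)) / V (WW c x)) +
      2 * κ ^ 2 / ((WW c (TT (1 / 4) x) : ℕ) : ℝ)))
    linarith
  · refine b2.trans (mul_le_mul_of_nonneg_right ?_ hS0)
    rw [← Real.exp_log (by linarith : (0 : ℝ) < 1 + t)]
    exact Real.exp_le_exp.2 a2.le

theorem Fx_ev (z : ℕ → ℕ) (hz : Limit z) (c : ℝ) (hc : 1 < c) (b : ℕ → ℕ) (hOK : OKU z (WW c) b) (D A B J : ℕ) (t : ℝ)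
    (ht0 : 0 < t) (hJ1 : (A + D + 2 : ℕ) ≤ 1 / 4 + J * t) (hJ2 : 1 / 4 + J * t ≤ ((A + D + 3 : ℕ) : ℝ)) :
    ∀ᶠ x : ℕ in atTop, Fx z b c k D A B J t x := by
  obtain ⟨n, hn⟩ := exists_nat_gt (1 / t)
  have hn1 : 1 / ((n : ℝ) + 1) ≤ t := by
    rw [div_le_iff₀ (by positivity)]
    rw [div_lt_iff₀ ht0] at hn
    nlinarith
  filter_upwards [thr_ev z hz t ht0 J, cut_ev c hc, sr_ev (k := k) c hc D A t ht0, eventually_ge_atTop (max 2 (D + 2)),
    log_top.eventually_ge_atTop 1, hOK k D (A + D + 3) (k * D) B n (by omega)] with x a1 a2 a3 a4 a5 a6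
  have hx2 : 2 ≤ x := (le_max_left _ _).trans a4
  have hxD : D + 2 ≤ x := (le_max_right _ _).trans a4
  refine ⟨hx2, a5, a1, ?_, a2, ?_, hJ2, a3⟩
  · intro C hC hgd hκ hrow k0 y lo hi hk0 hy hlo hhi hval
    obtain ⟨b1, b2⟩ := a6 C hC hgd hκ hrow k0 y lo hi hk0 hy hlo hhi hval
    have hSg := Pool.Agent.H559.HY.Sg_nonneg C (WW c (TT (1 / 4) x))
    constructor
    · refine le_trans (sub_le_sub_right (mul_le_mul_of_nonneg_right (by linarith) ?_) _) b1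
      exact mul_nonneg (Nat.cast_nonneg _) (mul_nonneg hSg (prod_nonneg fun i _ => (V_pos _).le))
    · refine b2.trans (add_le_add_left (mul_le_mul_of_nonneg_right (by linarith) ?_) _)
      exact mul_nonneg (Nat.cast_nonneg _) (mul_nonneg hSg (prod_nonneg fun i _ => (V_pos _).le))
  · have h1 : x ^ (A + D + 2) ≤ TT (1 / 4 + J * t) x := by
      unfold TT
      refine Nat.le_floor ?_
      push_cast
      rw [← Real.rpow_natCast]
      exact Real.rpow_le_rpow_of_exponent_le (by exact_mod_cast (by omega : 1 ≤ x)) hJ1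
    refine lt_of_lt_of_le ?_ h1
    have h2 : 0 < x ^ (A + D) := Nat.pow_pos (by omega)
    calc (D + 1) * x ^ (A + D) < x * x ^ (A + D) := Nat.mul_lt_mul_of_pos_right (by omega) h2
      _ ≤ x ^ 2 * x ^ (A + D) := Nat.mul_le_mul_right _ (by nlinarith)
      _ = x ^ (A + D + 2) := by ring

/-- the small terms -/
theorem absorb (q r : ℕ) (K : ℝ) : ∀ᶠ x : ℕ in atTop, K * ((x : ℝ) ^ (1 / 4 : ℝ) * Real.log x ^ q) ≤ x / Real.log x ^ r := by
  filter_upwards [log_pow_le (q + r) (1 / 2) (max K 0) (by norm_num), log_top.eventually_ge_atTop 1,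
    eventually_ge_atTop 1] with x h1 h2 h3
  have hx0 : (0 : ℝ) < x := by exact_mod_cast h3
  have hx1 : (1 : ℝ) ≤ x := by exact_mod_cast h3
  have hL : 0 < Real.log x := by linarith
  rw [le_div_iff₀ (by positivity)]
  calc K * ((x : ℝ) ^ (1 / 4 : ℝ) * Real.log x ^ q) * Real.log x ^ r = (x : ℝ) ^ (1 / 4 : ℝ) * (K * Real.log x ^ (q + r)) := by
        rw [pow_add]
        ring
    _ ≤ (x : ℝ) ^ (1 / 4 : ℝ) * (max K 0 * Real.log x ^ (q + r)) := by
        gcongr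
        exact le_max_left _ _
    _ ≤ (x : ℝ) ^ (1 / 4 : ℝ) * (x : ℝ) ^ (1 / 2 : ℝ) := by gcongr
    _ = (x : ℝ) ^ (3 / 4 : ℝ) := by
        rw [← Real.rpow_add hx0]
        norm_num
    _ ≤ (x : ℝ) ^ (1 : ℝ) := Real.rpow_le_rpow_of_exponent_le hx1 (by norm_num)
    _ = x := Real.rpow_one _

/-- **The formula of Bateman and Horn, uniformly in the polynomials.** -/
theorem uniform (z : ℕ → ℕ) (hz : Limit z) (c : ℝ) (hc : 1 < c) (b : ℕ → ℕ) (hOK : OKU z (WW c) b) (D A : ℕ)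
    (ε : ℝ) (hε : 0 < ε) : ∀ᶠ x : ℕ in atTop, ∀ F : Fin k → ℤ[X], Cls D A x F → ∀ u v : ℕ, u ≤ v → v ≤ x →
      |∑ n ∈ Ioc u v, (ind (RS z (WW c) b) F n - SS F (WW c x) * wg F n)| ≤
        ε * (SS F (WW c x) * (x / Real.log x ^ k)) := by
  obtain ⟨t, ht0, ht1, hht⟩ := hh_small k (ε / 4) (by positivity)
  -- the number of the thresholds
  obtain ⟨J, hJ1, hJ2⟩ : ∃ J : ℕ, ((A + D + 2 : ℕ) : ℝ) ≤ 1 / 4 + J * t ∧ 1 / 4 + J * t ≤ ((A + D + 3 : ℕ) : ℝ) := by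
    refine ⟨⌈(((A + D + 2 : ℕ) : ℝ) - 1 / 4) / t⌉₊, ?_, ?_⟩
    · have h1 := Nat.le_ceil ((((A + D + 2 : ℕ) : ℝ) - 1 / 4) / t)
      rw [div_le_iff₀ ht0] at h1
      linarith
    · have h0 : 0 ≤ (((A + D + 2 : ℕ) : ℝ) - 1 / 4) / t := by
        refine div_nonneg ?_ ht0.le
        push_cast
        have : (0 : ℝ) ≤ A := Nat.cast_nonneg _
        have : (0 : ℝ) ≤ D := Nat.cast_nonneg _
        linarith
      have h1 := Nat.ceil_lt_add_one h0
      have h2 := mul_lt_mul_of_pos_right h1 ht0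
      rw [add_mul, div_mul_cancel₀ _ ht0.ne', one_mul] at h2
      push_cast at h2 ⊢
      linarith
  set κ := k * D with hκ
  set B := k + 2 * κ + 1 with hB
  set m : ℕ := k * (J + 1) * (2 * D) with hm
  have hg := g_pos
  set c0 : ℝ := (1 / (2 * (κ : ℝ) + 1)) ^ (2 * κ + 1) * (g / 2) ^ (2 * κ) with hc0
  have hc00 : 0 < c0 := by positivity
  have hh0 := hh_nonneg k t ht0 ht1
  set K1 : ℝ := (m + 1) * (2 * D * (1 + 2 ^ k * (2 / g) ^ k)) + m * (1 + 2 ^ k * (2 / g) ^ k + ε / 4 * (2 / g) ^ k) with hK1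
  filter_upwards [Fx_ev (k := k) z hz c hc b hOK D A B J t ht0 hJ1 hJ2, V_TT 1 one_pos, absorb k B (4 * K1 / (ε * c0)),
    log_top.eventually_ge_atTop (4 * (m + 2) / (ε * c0)), cut_ev c hc, (cut_WW c hc).small 1 1 le_rfl one_pos] with
    x a1 a2 a3 a4 a5 a6 F hF u v huv hv
  have h1 := whole z b c D A B J t ht0 ht1 x a1 F hF u v huv hv
  refine h1.trans ?_
  have hx2 := a1.x2
  have hL1 := a1.L1
  set L := Real.log x with hL
  have hL0 : 0 < L := by linarith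
  have hx0 : (0 : ℝ) < x := by exact_mod_cast (by omega : 0 < x)
  have hx1R : (1 : ℝ) ≤ x := by exact_mod_cast (by omega : 1 ≤ x)
  have hTT1 : TT 1 x = x := by
    unfold TT
    rw [Real.rpow_one, Nat.floor_natCast]
  rw [hTT1] at a2 a6
  rw [pow_one] at a6
  set S := SS F (WW c x) with hS
  set S0 := SS F (WW c (TT (1 / 4) x)) with hS0d
  have hS0 : 0 ≤ S0 := SS_nonneg F hF.adm _
  have hSn : 0 ≤ S := SS_nonneg F hF.adm _
  obtain ⟨sr1, sr2⟩ := a1.sr F hF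
  -- bounds for the singular series
  have hVx : g / 2 / L ≤ V x := by
    rw [div_le_iff₀ hL0]
    have := a2.2
    rwa [mul_one] at this
  have hVpos : 0 < g / 2 / L := by positivity
  have hSlow : c0 / L ^ (2 * κ) ≤ S := by
    refine le_trans ?_ (SS_low D F hF.deg hF.adm (WW c x))
    have h2 : (g / 2 / L) ^ (2 * κ) ≤ V (WW c x) ^ (2 * κ) :=
      pow_le_pow_left₀ hVpos.le (hVx.trans (V_anti a6)) _
    calc c0 / L ^ (2 * κ) = (1 / (2 * (κ : ℝ) + 1)) ^ (2 * κ + 1) * (g / 2 / L) ^ (2 * κ) := by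
          rw [hc0, div_pow (g / 2) L]
          ring
      _ ≤ _ := mul_le_mul_of_nonneg_left h2 (by positivity)
  have hup : ∀ w, w ≤ x → SS F w ≤ (2 / g) ^ k * L ^ k := by
    intro w hw
    refine (SS_up F hF.adm w).trans ?_
    have h2 : (g / 2 / L) ^ k ≤ V w ^ k := pow_le_pow_left₀ hVpos.le (hVx.trans (V_anti hw)) _
    refine (one_div_le_one_div_of_le (by positivity) h2).trans (le_of_eq ?_)
    rw [← mul_pow, one_div, ← inv_pow]
    congr 1
    field_simp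
  have hTx : TT (1 / 4) x ≤ x := (TT_mono x (by omega) (1 / 4) 1 (by norm_num)).trans hTT1.le
  have hSup : S ≤ (2 / g) ^ k * L ^ k := hup _ a6
  have hS0up : S0 ≤ (2 / g) ^ k * L ^ k := hup _ ((WW_mono c (by linarith) hTx).trans a6)
  have hT : (TT (1 / 4) x : ℝ) ≤ (x : ℝ) ^ (1 / 4 : ℝ) := TT_le _ _
  have hxq : 1 ≤ (x : ℝ) ^ (1 / 4 : ℝ) := Real.one_le_rpow hx1R (by norm_num)
  have hLk : 1 ≤ L ^ k := one_le_pow₀ hL1
  have hxB : 0 < (x : ℝ) / L ^ B := by positivity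
  -- the main term
  have p1 : hh k t * S0 / L ^ k * ((v : ℝ) - u) ≤ ε / 2 * (S * (x / L ^ k)) := by
    have h2 : S0 ≤ 2 * S := by nlinarith
    have h3 : (v : ℝ) - u ≤ x := by
      have : (v : ℝ) ≤ x := by exact_mod_cast hv
      have : (0 : ℝ) ≤ u := Nat.cast_nonneg _
      linarith
    calc hh k t * S0 / L ^ k * ((v : ℝ) - u) ≤ hh k t * S0 / L ^ k * x :=
          mul_le_mul_of_nonneg_left h3 (by positivity)
      _ ≤ (ε / 4) * (2 * S) / L ^ k * x := by gcongr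
      _ = _ := by ring
  -- the second term
  have q1 : 1 + 2 ^ k * S ≤ (1 + 2 ^ k * (2 / g) ^ k) * L ^ k := by
    have : 2 ^ k * S ≤ 2 ^ k * ((2 / g) ^ k * L ^ k) := by gcongr
    nlinarith
  have q2 : |hh k t * S0 / L ^ k| ≤ ε / 4 * (2 / g) ^ k * L ^ k := by
    rw [abs_of_nonneg (by positivity)]
    calc hh k t * S0 / L ^ k ≤ hh k t * S0 / 1 := by gcongr
      _ ≤ (ε / 4) * ((2 / g) ^ k * L ^ k) / 1 := by gcongr
      _ = _ := by ring
  have p2 : ((m : ℝ) + 1) * (x / L ^ B + 2 * TT (1 / 4) x * D * (1 + 2 ^ k * S)) +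
      (m : ℝ) * (1 + 2 ^ k * S + |hh k t * S0 / L ^ k|) ≤
      (m + 1) * (x / L ^ B) + K1 * ((x : ℝ) ^ (1 / 4 : ℝ) * L ^ k) := by
    have r1 : 2 * TT (1 / 4) x * D * (1 + 2 ^ k * S) ≤
        2 * (x : ℝ) ^ (1 / 4 : ℝ) * D * ((1 + 2 ^ k * (2 / g) ^ k) * L ^ k) := by
      gcongr
    have r2 : 1 + 2 ^ k * S + |hh k t * S0 / L ^ k| ≤
        (x : ℝ) ^ (1 / 4 : ℝ) * ((1 + 2 ^ k * (2 / g) ^ k + ε / 4 * (2 / g) ^ k) * L ^ k) := by
      have r3 : 1 + 2 ^ k * S + |hh k t * S0 / L ^ k| ≤ (1 + 2 ^ k * (2 / g) ^ k + ε / 4 * (2 / g) ^ k) * L ^ k := by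
        linarith
      refine r3.trans (le_mul_of_one_le_left (by positivity) hxq)
    calc _ ≤ ((m : ℝ) + 1) * (x / L ^ B + 2 * (x : ℝ) ^ (1 / 4 : ℝ) * D * ((1 + 2 ^ k * (2 / g) ^ k) * L ^ k)) +
        (m : ℝ) * ((x : ℝ) ^ (1 / 4 : ℝ) * ((1 + 2 ^ k * (2 / g) ^ k + ε / 4 * (2 / g) ^ k) * L ^ k)) := by gcongr
      _ = _ := by
        rw [hK1]
        ring
  have p3 : K1 * ((x : ℝ) ^ (1 / 4 : ℝ) * L ^ k) ≤ ε * c0 / 4 * (x / L ^ B) := by
    have h2 : 4 * K1 / (ε * c0) * ((x : ℝ) ^ (1 / 4 : ℝ) * L ^ k) = K1 * ((x : ℝ) ^ (1 / 4 : ℝ) * L ^ k) / (ε * c0 / 4) := by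
      field_simp
    rw [h2, div_le_iff₀ (by positivity)] at a3
    linarith
  have p4 : ((m : ℝ) + 1) * (x / L ^ B) + ε * c0 / 4 * (x / L ^ B) ≤ ε / 2 * (S * (x / L ^ k)) := by
    have h2 : (m + 1 : ℝ) ≤ ε * c0 / 4 * L := by
      rw [div_le_iff₀ (by positivity)] at a4
      nlinarith
    have h3 : ((m : ℝ) + 1) * (x / L ^ B) + ε * c0 / 4 * (x / L ^ B) ≤ (ε * c0 / 2 * L) * (x / L ^ B) := by
      rw [← add_mul]
      refine mul_le_mul_of_nonneg_right ?_ hxB.le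
      have : ε * c0 / 4 ≤ ε * c0 / 4 * L := le_mul_of_one_le_right (by positivity) hL1
      linarith
    refine h3.trans ?_
    have h4 : (ε * c0 / 2 * L) * (x / L ^ B) = ε / 2 * (c0 / L ^ (2 * κ) * (x / L ^ k)) := by
      rw [hB]
      have e : L ^ (k + 2 * κ + 1) = L ^ k * L ^ (2 * κ) * L := by rw [pow_succ, pow_add]
      rw [e]
      field_simp
    rw [h4]
    gcongr
  linarith

end Pool.Agent.H559.UB
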