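import Pool.Agent.H559.UB.Loc
import Pool.Agent.H559.UB.Ineq
import Pool.Agent.H559.UB.Brk
import Pool.Agent.H559.HY.CutW

set_option autoImplicit false

/-! # One piece -/

open Finset Filter Topology Polynomial
open Pool.Agent.T2H32.BF (V V_pos V_anti V_ratio recip_le mertens)
open Pool.Agent.H559.BS (Limit TT TT_le TT_ge TT_top log_TT V_TT log_pow_le log_top g g_pos)
open Pool.Agent.H559.HY (Arr evl rts rts_sub arr evl_arr Sg cnt RS box mem_box WW)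
open Pool.Agent.H559.PV (Gd Row OKU)

namespace Pool.Agent.H559.UB

variable {k : ℕ}

/-- the weight -/
noncomputable def wg (F : Fin k → ℤ[X]) (n : ℕ) : ℝ := ∏ i, 1 / Real.log |(((F i).eval (n : ℤ) : ℤ) : ℝ)|

open Classical in
/-- the indicator -/
noncomputable def ind (A : Set ℕ) (F : Fin k → ℤ[X]) (n : ℕ) : ℝ :=
  if ∀ i, ((F i).eval (n : ℤ)).natAbs ∈ A then 1 else 0

/-- the systems of height `x ^ A` -/
structure Cls (D A x : ℕ) (F : Fin k → ℤ[X]) : Prop where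
  deg : ∀ i, (F i).natDegree ≤ D
  coe : ∀ i j, |(F i).coeff j| ≤ ((x ^ A : ℕ) : ℤ)
  ncs : ∀ i, ∀ p : ℕ, p.Prime → Real.log x < p → ∃ j : ℕ, j ≠ 0 ∧ ¬ (p : ℤ) ∣ (F i).coeff j
  dis : ∀ i j, i ≠ j → F i ≠ F j ∧ F i ≠ -F j
  adm : ∀ p : ℕ, p.Prime → omg F p < p

theorem Cls.pos {D A x : ℕ} {F : Fin k → ℤ[X]} (h : Cls D A x F) (i : Fin k) : 0 < (F i).natDegree := by
  obtain ⟨p, hp1, hp2⟩ := Nat.exists_infinite_primes (⌊Real.log x⌋₊ + 1)
  obtain ⟨j, hj0, hj⟩ := h.ncs i p hp2 ((Nat.lt_floor_add_one _).trans_le (by exact_mod_cast hp1))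
  by_contra hcon
  have h1 : (F i).coeff j = 0 := coeff_eq_zero_of_natDegree_lt (by omega)
  rw [h1] at hj
  exact hj (dvd_zero _)

theorem bracket (T : ℕ → ℕ) (J : ℕ) (v : ℤ) (h0 : (T 0 : ℤ) ≤ v) (hJ : v < T J) : ∃ j < J, (T j : ℤ) ≤ v ∧ v < T (j + 1) := by
  classical
  have hex : ∃ j, v < T j := ⟨J, hJ⟩
  set m := Nat.find hex with hm
  have h1 : v < T m := Nat.find_spec hex
  have h2 : m ≤ J := Nat.find_min' hex hJ
  have h3 : m ≠ 0 := by
    intro h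
    rw [h] at h1
    omega
  have h4 : ¬ v < T (m - 1) := Nat.find_min hex (by omega)
  refine ⟨m - 1, by omega, by omega, ?_⟩
  rw [Nat.sub_add_cancel (by omega)]
  exact h1

/-- the facts about the thresholds -/
structure Fx (z b : ℕ → ℕ) (c : ℝ) (k D A B J : ℕ) (t : ℝ) (x : ℕ) : Prop where
  x2 : 2 ≤ x
  L1 : 1 ≤ Real.log x
  thr : ∀ j ≤ J, (1 - t) / ((1 / 4 + j * t) * Real.log x) ≤ V (z (TT (1 / 4 + j * t) x)) ∧
    V (z (TT (1 / 4 + j * t) x)) ≤ (1 + t) / ((1 / 4 + j * t) * Real.log x) ∧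
    (1 - t) * (1 / 4 + j * t) * Real.log x ≤ Real.log (TT (1 / 4 + j * t) x) ∧ 3 ≤ TT (1 / 4 + j * t) x
  ok : ∀ C ∈ box k D (x ^ (A + D + 3)), (∀ p, p.Prime → WW c (TT (1 / 4) x) < p → Gd C p) →
    (∀ p, p.Prime → p ≤ WW c (TT (1 / 4) x) → (rts C p 0).card ≤ k * D) → Row C →
    ∀ (k0 y : ℕ) (lo hi : Fin k → ℕ), k0 ≤ x → y ≤ x → (∀ i, TT (1 / 4) x ≤ lo i) → (∀ i, hi i ≤ x ^ (A + D + 3)) →
    (∀ m ∈ Ioc k0 (k0 + y), ∀ i, (lo i : ℤ) ≤ evl (C i) m ∧ evl (C i) m ≤ hi i) →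
    (1 - t) * (y * (Sg C (WW c (TT (1 / 4) x)) * ∏ i, V (z (hi i)))) - x / Real.log x ^ B ≤
        cnt C (RS z (WW c) b) k0 y ∧
      cnt C (RS z (WW c) b) k0 y ≤
        (1 + t) * (y * (Sg C (WW c (TT (1 / 4) x)) * ∏ i, V (z (lo i)))) + x / Real.log x ^ B
  cut : Real.log x ≤ WW c (TT (1 / 4) x)
  big : (D + 1) * x ^ (A + D) < TT (1 / 4 + J * t) x
  hiA : 1 / 4 + J * t ≤ ((A + D + 3 : ℕ) : ℝ)
  sr : ∀ F : Fin k → ℤ[X], Cls D A x F → (1 - t) * SS F (WW c (TT (1 / 4) x)) ≤ SS F (WW c x) ∧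
    SS F (WW c x) ≤ (1 + t) * SS F (WW c (TT (1 / 4) x))

theorem TT_mono (x : ℕ) (hx : 1 ≤ x) (s t : ℝ) (h : s ≤ t) : TT s x ≤ TT t x := by
  unfold TT
  exact Nat.floor_le_floor (Real.rpow_le_rpow_of_exponent_le (by exact_mod_cast hx) h)

/-- a piece with large values of constant sign -/
theorem good_piece (z b : ℕ → ℕ) (c : ℝ) (D A B J : ℕ) (t : ℝ) (ht0 : 0 < t) (ht1 : t ≤ 1 / 2) (x : ℕ)
    (hx : Fx z b c k D A B J t x) (F G : Fin k → ℤ[X]) (hF : Cls D A x F) (hG : ∀ i, G i = F i ∨ G i = -F i)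
    (a e : ℕ) (hae : a ≤ e) (hex : e ≤ x) (jj : Fin k → ℕ) (hjJ : ∀ i, jj i < J)
    (hval : ∀ n ∈ Ioc a e, ∀ i, (TT (1 / 4 + (jj i : ℕ) * t) x : ℤ) ≤ (G i).eval (n : ℤ) ∧
      (G i).eval (n : ℤ) ≤ TT (1 / 4 + ((jj i + 1 : ℕ) : ℝ) * t) x) :
    |∑ n ∈ Ioc a e, (ind (RS z (WW c) b) F n - SS F (WW c x) * wg F n)| ≤
      hh k t * SS F (WW c (TT (1 / 4) x)) / Real.log x ^ k * ((e : ℝ) - a) + x / Real.log x ^ B := by
  classical
  have hx1 : 1 ≤ x := by have := hx.x2; omega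
  have hx0 : (0 : ℝ) < x := by exact_mod_cast hx1
  set L := Real.log x with hL
  have hL0 : 0 < L := lt_of_lt_of_le one_pos hx.L1
  have hdG : ∀ i, (G i).natDegree ≤ D := fun i => by
    rcases hG i with h | h
    · rw [h]; exact hF.deg i
    · rw [h, natDegree_neg]; exact hF.deg i
  have hSg : Sg (arr D G) (WW c (TT (1 / 4) x)) = SS F (WW c (TT (1 / 4) x)) := Sg_SS D F G hG hdG _
  have hcoef : ∀ i j, |(G i).coeff j| = |(F i).coeff j| := by
    intro i j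
    rcases hG i with h | h
    · rw [h]
    · rw [h, coeff_neg, abs_neg]
  have hbox : arr D G ∈ box k D (x ^ (A + D + 3)) := by
    rw [mem_box]
    intro i j
    unfold arr
    rw [hcoef]
    refine (hF.coe i j).trans ?_
    exact_mod_cast Nat.pow_le_pow_right hx1 (by omega)
  have hgd : ∀ p, p.Prime → WW c (TT (1 / 4) x) < p → Gd (arr D G) p := by
    intro p hp hpw i
    have h1 : L < p := lt_of_le_of_lt hx.cut (by exact_mod_cast hpw)
    obtain ⟨j, hj0, hj⟩ := hF.ncs i p hp h1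
    have hjD : j ≤ D := by
      by_contra hcon
      rw [coeff_eq_zero_of_natDegree_lt (lt_of_le_of_lt (hF.deg i) (not_le.1 hcon))] at hj
      exact hj (dvd_zero _)
    refine ⟨⟨j, Nat.lt_succ_of_le hjD⟩, fun h => hj0 (by simpa using congrArg Fin.val h), ?_⟩
    intro h2
    apply hj
    unfold arr at h2
    rw [← dvd_abs] at h2
    rw [hcoef] at h2
    rw [← dvd_abs]
    exact h2
  have hκ : ∀ p, p.Prime → p ≤ WW c (TT (1 / 4) x) → (rts (arr D G) p 0).card ≤ k * D := by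
    intro p hp _
    rw [rts_omg D F G hG hdG p hp]
    exact omg_le D F hF.deg p hp (hF.adm p hp)
  have hrow : Row (arr D G) := by
    intro i i' hi heq
    have hpoly : G i = G i' := by
      ext n
      by_cases hn : n ≤ D
      · exact congrFun heq ⟨n, Nat.lt_succ_of_le hn⟩
      · rw [coeff_eq_zero_of_natDegree_lt (lt_of_le_of_lt (hdG i) (not_le.1 hn)),
          coeff_eq_zero_of_natDegree_lt (lt_of_le_of_lt (hdG i') (not_le.1 hn))]
    obtain ⟨h1, h2⟩ := hF.dis i i' hi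
    rcases hG i with h | h <;> rcases hG i' with h' | h'
    · exact h1 (by rw [← h, ← h', hpoly])
    · exact h2 (by rw [← h, ← h', hpoly])
    · apply h2
      rw [h, h'] at hpoly
      rw [← hpoly, neg_neg]
    · rw [h, h'] at hpoly
      exact h1 (neg_injective hpoly)
  have hloT : ∀ i, TT (1 / 4) x ≤ TT (1 / 4 + (jj i : ℕ) * t) x := fun i => TT_mono x hx1 _ _ (by
    have : (0 : ℝ) ≤ (jj i : ℕ) * t := by positivity
    linarith)
  have hhiT : ∀ i, TT (1 / 4 + ((jj i + 1 : ℕ) : ℝ) * t) x ≤ x ^ (A + D + 3) := by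
    intro i
    have h1 : 1 / 4 + ((jj i + 1 : ℕ) : ℝ) * t ≤ 1 / 4 + J * t := by
      have : ((jj i + 1 : ℕ) : ℝ) ≤ J := by exact_mod_cast hjJ i
      have := mul_le_mul_of_nonneg_right this ht0.le
      linarith
    refine (TT_mono x hx1 _ _ (h1.trans hx.hiA)).trans ?_
    have := TT_le ((A + D + 3 : ℕ) : ℝ) x
    rw [Real.rpow_natCast] at this
    exact_mod_cast this
  have hbracket : ∀ m ∈ Ioc a (a + (e - a)), ∀ i, (TT (1 / 4 + (jj i : ℕ) * t) x : ℤ) ≤ evl (arr D G i) m ∧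
      evl (arr D G i) m ≤ TT (1 / 4 + ((jj i + 1 : ℕ) : ℝ) * t) x := by
    intro m hm i
    rw [Nat.add_sub_cancel' hae] at hm
    rw [evl_arr D G hdG]
    exact hval m hm i
  obtain ⟨hlow, hup⟩ := hx.ok (arr D G) hbox hgd hκ hrow a (e - a) (fun i => TT (1 / 4 + (jj i : ℕ) * t) x)
    (fun i => TT (1 / 4 + ((jj i + 1 : ℕ) : ℝ) * t) x) (hae.trans hex) (by omega) hloT hhiT hbracket
  rw [hSg] at hlow hup
  have hsr := hx.sr F hF
  have hT3 : ∀ i, (3 : ℤ) ≤ TT (1 / 4 + (jj i : ℕ) * t) x := fun i => by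
    exact_mod_cast (hx.thr (jj i) (hjJ i).le).2.2.2
  have habs : ∀ n : ℕ, ∀ i, 0 < (G i).eval (n : ℤ) → |(F i).eval (n : ℤ)| = (G i).eval (n : ℤ) := by
    intro n i h
    rcases hG i with h1 | h1
    · rw [h1] at h
      rw [h1, abs_of_pos h]
    · rw [h1, eval_neg] at h
      rw [h1, eval_neg, ← abs_neg, abs_of_pos h]
  -- the count
  have hcnt : ∑ n ∈ Ioc a e, ind (RS z (WW c) b) F n = (cnt (arr D G) (RS z (WW c) b) a (e - a) : ℝ) := by
    unfold ind cnt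
    rw [card_filter, Nat.add_sub_cancel' hae]
    push_cast
    refine sum_congr rfl fun n hn => ?_
    have hv : ∀ i, (evl (arr D G i) n).toNat = ((F i).eval (n : ℤ)).natAbs := by
      intro i
      rw [evl_arr D G hdG]
      have h1 := (hval n hn i).1
      have h2 := hT3 i
      have h3 := habs n i (by omega)
      rw [Int.abs_eq_natAbs] at h3
      omega
    have hiff : (∀ i, ((F i).eval (n : ℤ)).natAbs ∈ RS z (WW c) b) ↔ ∀ i, (evl (arr D G i) n).toNat ∈ RS z (WW c) b := by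
      refine forall_congr' fun i => ?_
      rw [hv i]
    by_cases h1 : ∀ i, ((F i).eval (n : ℤ)).natAbs ∈ RS z (WW c) b
    · rw [if_pos h1, if_pos (hiff.1 h1)]
    · rw [if_neg h1, if_neg (fun h2 => h1 (hiff.2 h2))]
  -- the weights
  have hw : ∀ n ∈ Ioc a e, ∏ i, (1 / ((1 / 4 + (jj i : ℕ) * t + t) * L)) ≤ wg F n ∧
      wg F n ≤ ∏ i, (1 / ((1 - t) * (1 / 4 + (jj i : ℕ) * t) * L)) := by
    intro n hn
    have h0 : ∀ i, (1 - t) * (1 / 4 + (jj i : ℕ) * t) * L ≤ Real.log |(((F i).eval (n : ℤ) : ℤ) : ℝ)| ∧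
        Real.log |(((F i).eval (n : ℤ) : ℤ) : ℝ)| ≤ (1 / 4 + (jj i : ℕ) * t + t) * L := by
      intro i
      obtain ⟨h1, h2⟩ := hval n hn i
      have h3 := hT3 i
      have h4 := habs n i (by omega)
      have h5 : |(((F i).eval (n : ℤ) : ℤ) : ℝ)| = (((G i).eval (n : ℤ) : ℤ) : ℝ) := by
        rw [← Int.cast_abs, h4]
      rw [h5]
      have h6 : ((TT (1 / 4 + (jj i : ℕ) * t) x : ℕ) : ℝ) ≤ (((G i).eval (n : ℤ) : ℤ) : ℝ) := by exact_mod_cast h1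
      have h7 : (((G i).eval (n : ℤ) : ℤ) : ℝ) ≤ ((TT (1 / 4 + ((jj i + 1 : ℕ) : ℝ) * t) x : ℕ) : ℝ) := by exact_mod_cast h2
      have h8 : (0 : ℝ) < ((TT (1 / 4 + (jj i : ℕ) * t) x : ℕ) : ℝ) := by
        have : (3 : ℝ) ≤ ((TT (1 / 4 + (jj i : ℕ) * t) x : ℕ) : ℝ) := by exact_mod_cast h3
        linarith
      constructor
      · exact (hx.thr (jj i) (hjJ i).le).2.2.1.trans (Real.log_le_log h8 h6)
      · have h9 : (((G i).eval (n : ℤ) : ℤ) : ℝ) ≤ (x : ℝ) ^ (1 / 4 + ((jj i + 1 : ℕ) : ℝ) * t) := h7.trans (TT_le _ _)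
        refine (Real.log_le_log (lt_of_lt_of_le h8 h6) h9).trans (le_of_eq ?_)
        rw [Real.log_rpow hx0]
        push_cast
        ring
    have hlow0 : ∀ i, 0 < (1 - t) * (1 / 4 + (jj i : ℕ) * t) * L := fun i => by
      have : (0 : ℝ) ≤ (jj i : ℕ) * t := by positivity
      have : (0 : ℝ) < 1 - t := by linarith
      positivity
    unfold wg
    constructor
    · refine prod_le_prod (fun i _ => ?_) fun i _ => one_div_le_one_div_of_le ((hlow0 i).trans_le (h0 i).1) (h0 i).2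
      have : (0 : ℝ) ≤ (jj i : ℕ) * t := by positivity
      positivity
    · refine prod_le_prod (fun i _ => ?_) fun i _ => one_div_le_one_div_of_le (hlow0 i) (h0 i).1
      have := (hlow0 i).trans_le (h0 i).1
      positivity
  have hy : ((e - a : ℕ) : ℝ) = (e : ℝ) - a := Nat.cast_sub hae
  have hcard : ((Ioc a e).card : ℝ) = (e : ℝ) - a := by rw [Nat.card_Ioc, hy]
  have hw1 : ((e : ℝ) - a) * ∏ i, (1 / ((1 / 4 + (jj i : ℕ) * t + t) * L)) ≤ ∑ n ∈ Ioc a e, wg F n := by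
    rw [← hcard, ← nsmul_eq_mul]
    exact card_nsmul_le_sum _ _ _ fun n hn => (hw n hn).1
  have hw2 : ∑ n ∈ Ioc a e, wg F n ≤ ((e : ℝ) - a) * ∏ i, (1 / ((1 - t) * (1 / 4 + (jj i : ℕ) * t) * L)) := by
    rw [← hcard, ← nsmul_eq_mul]
    exact sum_le_card_nsmul _ _ _ fun n hn => (hw n hn).2
  rw [sum_sub_distrib, ← mul_sum, hcnt]
  rw [hy] at hlow hup
  have hS0 := SS_nonneg F hF.adm (WW c (TT (1 / 4) x))
  refine piece_ineq k t ht0 ht1 (fun i => 1 / 4 + (jj i : ℕ) * t) (fun i => by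
      have : (0 : ℝ) ≤ (jj i : ℕ) * t := by positivity
      linarith) L hL0 ((e : ℝ) - a) (SS F (WW c (TT (1 / 4) x))) (SS F (WW c x)) (by
      have : (a : ℝ) ≤ e := by exact_mod_cast hae
      linarith) hS0 hsr.1 hsr.2 (fun i => V (z (TT (1 / 4 + (jj i : ℕ) * t) x)))
    (fun i => V (z (TT (1 / 4 + ((jj i + 1 : ℕ) : ℝ) * t) x))) (fun i => (V_pos _).le)
    (fun i => (hx.thr (jj i) (hjJ i).le).2.1) (fun i => ?_) _ _ hup hlow _ hw1 hw2
  have h1 := (hx.thr (jj i + 1) (hjJ i)).1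
  have e1 : (1 : ℝ) / 4 + (jj i : ℕ) * t + t = 1 / 4 + ((jj i + 1 : ℕ) : ℝ) * t := by
    push_cast
    ring
  show (1 - t) / ((1 / 4 + ((jj i : ℕ) : ℝ) * t + t) * L) ≤ _
  rw [e1]
  exact h1

end Pool.Agent.H559.UB
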