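import Pool.Agent.H559.UB.Piece

set_option autoImplicit false

/-! # All the pieces -/

open Finset Filter Topology Polynomial
open Pool.Agent.T2H32.BF (V V_pos V_anti V_ratio recip_le mertens)
open Pool.Agent.H559.BS (Limit TT TT_le TT_ge TT_top log_TT V_TT log_pow_le log_top g g_pos)
open Pool.Agent.H559.HY (Arr evl rts rts_sub arr evl_arr Sg cnt RS box mem_box WW)
open Pool.Agent.H559.PV (Gd Row OKU)

namespace Pool.Agent.H559.UB

variable {k : ℕ}

theorem hh_nonneg (k : ℕ) (t : ℝ) (ht0 : 0 < t) (ht1 : t ≤ 1 / 2) : 0 ≤ hh k t := by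
  have h1t : 0 < 1 - t := by linarith
  unfold hh
  have b1 : (1 - t) ^ (k + 1) / (1 + 4 * t) ^ k ≤ 1 := by
    rw [div_le_one (by positivity)]
    calc (1 - t) ^ (k + 1) ≤ 1 := pow_le_one₀ h1t.le (by linarith)
      _ ≤ (1 + 4 * t) ^ k := one_le_pow₀ (by linarith)
  have b2 : 1 ≤ (1 + t) ^ (k + 1) / (1 - t) ^ k := by
    rw [one_le_div (by positivity)]
    calc (1 - t) ^ k ≤ 1 := pow_le_one₀ h1t.le (by linarith)
      _ ≤ (1 + t) ^ (k + 1) := one_le_pow₀ (by linarith)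
  have : (0 : ℝ) ≤ 4 ^ k := by positivity
  exact mul_nonneg this (by linarith)

theorem wg_bd (F : Fin k → ℤ[X]) (n : ℕ) : 0 ≤ wg F n ∧ wg F n ≤ 2 ^ k := by
  have h : ∀ v : ℤ, 0 ≤ 1 / Real.log |(v : ℝ)| ∧ 1 / Real.log |(v : ℝ)| ≤ 2 := by
    intro v
    by_cases hv : |v| ≤ 1
    · have h1 : |v| = 0 ∨ |v| = 1 := by
        have := abs_nonneg v
        omega
      have h2 : |(v : ℝ)| = ((|v| : ℤ) : ℝ) := (Int.cast_abs).symm
      rcases h1 with h1 | h1
      · rw [h2, h1]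
        norm_num
      · rw [h2, h1]
        norm_num
    · have h1 : (2 : ℝ) ≤ |(v : ℝ)| := by
        rw [← Int.cast_abs]
        exact_mod_cast (by omega : (2 : ℤ) ≤ |v|)
      have h2 := Real.log_le_log (by norm_num) h1
      have h3 := Real.log_two_gt_d9
      have h4 : 0 < Real.log |(v : ℝ)| := by linarith
      refine ⟨by positivity, ?_⟩
      rw [div_le_iff₀ h4]
      linarith
  unfold wg
  refine ⟨prod_nonneg fun i _ => (h _).1, ?_⟩
  calc ∏ i, 1 / Real.log |(((F i).eval (n : ℤ) : ℤ) : ℝ)| ≤ ∏ _i : Fin k, (2 : ℝ) :=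
        prod_le_prod (fun i _ => (h _).1) fun i _ => (h _).2
    _ = 2 ^ k := by rw [prod_const, card_univ, Fintype.card_fin]

theorem phi_bd (A : Set ℕ) (F : Fin k → ℤ[X]) (S : ℝ) (hS : 0 ≤ S) (n : ℕ) :
    |ind A F n - S * wg F n| ≤ 1 + 2 ^ k * S := by
  classical
  obtain ⟨h1, h2⟩ := wg_bd F n
  have h3 : 0 ≤ ind A F n ∧ ind A F n ≤ 1 := by
    unfold ind
    split_ifs <;> norm_num
  have h4 : S * wg F n ≤ 2 ^ k * S := by
    rw [mul_comm]
    exact mul_le_mul_of_nonneg_right h2 hS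
  have h5 : 0 ≤ S * wg F n := mul_nonneg hS h1
  rw [abs_le]
  constructor <;> linarith [h3.1, h3.2]

theorem val_bd (D A x : ℕ) (hx : 1 ≤ x) (F : Fin k → ℤ[X]) (hF : Cls D A x F) (i : Fin k) (n : ℕ) (hn : n ≤ x) :
    |(F i).eval (n : ℤ)| ≤ (((D + 1) * x ^ (A + D) : ℕ) : ℤ) := by
  rw [← evl_arr D F hF.deg]
  unfold evl arr
  refine (abs_sum_le_sum_abs _ _).trans ?_
  have h1 : ∀ j : Fin (D + 1), |(F i).coeff j * (n : ℤ) ^ (j : ℕ)| ≤ (((x ^ (A + D) : ℕ)) : ℤ) := by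
    intro j
    rw [abs_mul]
    have h2 := hF.coe i j
    have h3 : |(n : ℤ) ^ (j : ℕ)| ≤ ((x ^ D : ℕ) : ℤ) := by
      rw [abs_of_nonneg (by positivity)]
      have h4 : n ^ (j : ℕ) ≤ x ^ D := (Nat.pow_le_pow_left hn _).trans (Nat.pow_le_pow_right hx (Nat.lt_succ_iff.1 j.2))
      exact_mod_cast h4
    calc |(F i).coeff j| * |(n : ℤ) ^ (j : ℕ)| ≤ ((x ^ A : ℕ) : ℤ) * ((x ^ D : ℕ) : ℤ) :=
          mul_le_mul h2 h3 (abs_nonneg _) (by positivity)
      _ = _ := by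
          push_cast
          rw [pow_add]
  refine (sum_le_card_nsmul _ _ _ fun j _ => h1 j).trans (le_of_eq ?_)
  rw [card_univ, Fintype.card_fin, nsmul_eq_mul]
  push_cast
  ring

/-- an arbitrary piece without a break point -/
theorem any_piece (z b : ℕ → ℕ) (c : ℝ) (D A B J : ℕ) (t : ℝ) (ht0 : 0 < t) (ht1 : t ≤ 1 / 2) (x : ℕ)
    (hx : Fx z b c k D A B J t x) (F : Fin k → ℤ[X]) (hF : Cls D A x F)
    (a e : ℕ) (hae : a ≤ e) (hex : e ≤ x)
    (hpat : ∀ i, ∀ j ≤ J, ∀ n ∈ Ioc a e,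
      ((TT (1 / 4 + (j : ℕ) * t) x : ℤ) ≤ (F i).eval (n : ℤ) ↔ (TT (1 / 4 + (j : ℕ) * t) x : ℤ) ≤ (F i).eval (e : ℤ)) ∧
      (1 - (TT (1 / 4 + (j : ℕ) * t) x : ℤ) ≤ (F i).eval (n : ℤ) ↔ 1 - (TT (1 / 4 + (j : ℕ) * t) x : ℤ) ≤ (F i).eval (e : ℤ))) :
    |∑ n ∈ Ioc a e, (ind (RS z (WW c) b) F n - SS F (WW c x) * wg F n)| ≤
      hh k t * SS F (WW c (TT (1 / 4) x)) / Real.log x ^ k * ((e : ℝ) - a) +
        (x / Real.log x ^ B + 2 * TT (1 / 4) x * D * (1 + 2 ^ k * SS F (WW c x))) := by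
  classical
  have hx1 : 1 ≤ x := by have := hx.x2; omega
  have hL0 : 0 < Real.log x := lt_of_lt_of_le one_pos hx.L1
  have hS0 := SS_nonneg F hF.adm (WW c (TT (1 / 4) x))
  have hS := SS_nonneg F hF.adm (WW c x)
  have hh0 := hh_nonneg k t ht0 ht1
  have hea : (0 : ℝ) ≤ (e : ℝ) - a := by
    have : (a : ℝ) ≤ e := by exact_mod_cast hae
    linarith
  have hm1 : 0 ≤ hh k t * SS F (WW c (TT (1 / 4) x)) / Real.log x ^ k * ((e : ℝ) - a) := by positivity
  have hm2 : 0 ≤ (x : ℝ) / Real.log x ^ B := by positivity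
  have hm3 : 0 ≤ 2 * (TT (1 / 4) x : ℝ) * D * (1 + 2 ^ k * SS F (WW c x)) := by positivity
  have hT0 : TT (1 / 4 + ((0 : ℕ) : ℝ) * t) x = TT (1 / 4) x := by
    rw [Nat.cast_zero, zero_mul, add_zero]
  by_cases hsm : ∃ i, |(F i).eval (e : ℤ)| < TT (1 / 4) x
  · obtain ⟨i, hi⟩ := hsm
    have hcard : (Ioc a e).card ≤ 2 * TT (1 / 4) x * D := by
      refine small_card (F i) (hF.pos i) D (hF.deg i) (Ioc a e) (TT (1 / 4) x) fun n hn => ?_
      obtain ⟨h1, h2⟩ := hpat i 0 (Nat.zero_le _) n hn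
      rw [hT0] at h1 h2
      rw [abs_lt] at hi ⊢
      constructor
      · have h3 : 1 - (TT (1 / 4) x : ℤ) ≤ (F i).eval (n : ℤ) := h2.2 (by omega)
        omega
      · by_contra hcon
        have h3 := h1.1 (by omega)
        omega
    have h1 : |∑ n ∈ Ioc a e, (ind (RS z (WW c) b) F n - SS F (WW c x) * wg F n)| ≤
        (Ioc a e).card * (1 + 2 ^ k * SS F (WW c x)) := by
      refine (abs_sum_le_sum_abs _ _).trans ?_
      rw [← nsmul_eq_mul]
      exact sum_le_card_nsmul _ _ _ fun n _ => phi_bd _ F _ hS n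
    have h2 : ((Ioc a e).card : ℝ) * (1 + 2 ^ k * SS F (WW c x)) ≤ 2 * TT (1 / 4) x * D * (1 + 2 ^ k * SS F (WW c x)) := by
      refine mul_le_mul_of_nonneg_right ?_ (by positivity)
      exact_mod_cast hcard
    linarith
  · push Not at hsm
    set G : Fin k → ℤ[X] := fun i => if 0 < (F i).eval (e : ℤ) then F i else -F i with hG
    have hG1 : ∀ i, G i = F i ∨ G i = -F i := by
      intro i
      simp only [hG]
      split_ifs
      · exact Or.inl rfl
      · exact Or.inr rfl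
    have hGe : ∀ i, (G i).eval (e : ℤ) = |(F i).eval (e : ℤ)| := by
      intro i
      simp only [hG]
      split_ifs with h
      · rw [abs_of_pos h]
      · rw [eval_neg, abs_of_nonpos (not_lt.1 h)]
    have hjj : ∀ i, ∃ j < J, ((TT (1 / 4 + (j : ℕ) * t) x : ℕ) : ℤ) ≤ (G i).eval (e : ℤ) ∧
        (G i).eval (e : ℤ) < ((TT (1 / 4 + ((j + 1 : ℕ) : ℝ) * t) x : ℕ) : ℤ) := by
      intro i
      refine bracket (fun j : ℕ => TT (1 / 4 + (j : ℝ) * t) x) J _ ?_ ?_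
      · show ((TT (1 / 4 + ((0 : ℕ) : ℝ) * t) x : ℕ) : ℤ) ≤ _
        rw [hT0, hGe]
        exact hsm i
      · rw [hGe]
        refine (val_bd D A x hx1 F hF i e hex).trans_lt ?_
        exact_mod_cast hx.big
    choose jj hjJ hj1 hj2 using hjj
    have hval : ∀ n ∈ Ioc a e, ∀ i, (TT (1 / 4 + (jj i : ℕ) * t) x : ℤ) ≤ (G i).eval (n : ℤ) ∧
        (G i).eval (n : ℤ) ≤ TT (1 / 4 + ((jj i + 1 : ℕ) : ℝ) * t) x := by
      intro n hn i
      obtain ⟨h1, h2⟩ := hpat i (jj i) (hjJ i).le n hn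
      obtain ⟨h3, h4⟩ := hpat i (jj i + 1) (hjJ i) n hn
      have h5 := hj1 i
      have h6 := hj2 i
      rw [hGe] at h5 h6
      simp only [hG]
      split_ifs with h
      · rw [abs_of_pos h] at h5 h6
        constructor
        · exact h1.2 h5
        · by_contra hcon
          have := h3.1 (by omega)
          omega
      · rw [abs_of_nonpos (not_lt.1 h)] at h5 h6
        rw [eval_neg]
        constructor
        · by_contra hcon
          have := h2.1 (by omega)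
          omega
        · have := h4.2 (by omega)
          omega
    have h1 := good_piece z b c D A B J t ht0 ht1 x hx F G hF hG1 a e hae hex jj hjJ hval
    linarith

/-- all the pieces together -/
theorem whole (z b : ℕ → ℕ) (c : ℝ) (D A B J : ℕ) (t : ℝ) (ht0 : 0 < t) (ht1 : t ≤ 1 / 2) (x : ℕ)
    (hx : Fx z b c k D A B J t x) (F : Fin k → ℤ[X]) (hF : Cls D A x F) (u v : ℕ) (huv : u ≤ v) (hv : v ≤ x) :
    |∑ n ∈ Ioc u v, (ind (RS z (WW c) b) F n - SS F (WW c x) * wg F n)| ≤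
      hh k t * SS F (WW c (TT (1 / 4) x)) / Real.log x ^ k * ((v : ℝ) - u) +
        (((k * (J + 1) * (2 * D) : ℕ) : ℝ) + 1) *
          (x / Real.log x ^ B + 2 * TT (1 / 4) x * D * (1 + 2 ^ k * SS F (WW c x))) +
        ((k * (J + 1) * (2 * D) : ℕ) : ℝ) * (1 + 2 ^ k * SS F (WW c x) +
          |hh k t * SS F (WW c (TT (1 / 4) x)) / Real.log x ^ k|) := by
  classical
  have hL0 : 0 < Real.log x := lt_of_lt_of_le one_pos hx.L1
  have hS := SS_nonneg F hF.adm (WW c x)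
  set Z : Finset ℕ := ((univ : Finset (Fin k)) ×ˢ range (J + 1)).biUnion (fun q =>
    brk (F q.1) (TT (1 / 4 + (q.2 : ℕ) * t) x) ∪ brk (F q.1) (1 - (TT (1 / 4 + (q.2 : ℕ) * t) x : ℤ))) with hZ
  have hZc : Z.card ≤ k * (J + 1) * (2 * D) := by
    refine card_biUnion_le.trans ?_
    calc ∑ q ∈ (univ : Finset (Fin k)) ×ˢ range (J + 1), (brk (F q.1) (TT (1 / 4 + (q.2 : ℕ) * t) x) ∪
          brk (F q.1) (1 - (TT (1 / 4 + (q.2 : ℕ) * t) x : ℤ))).card ≤
          ∑ _q ∈ (univ : Finset (Fin k)) ×ˢ range (J + 1), 2 * D := by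
          refine sum_le_sum fun q _ => (card_union_le _ _).trans ?_
          have h1 := brk_card (F q.1) (TT (1 / 4 + (q.2 : ℕ) * t) x) D (hF.deg _)
          have h2 := brk_card (F q.1) (1 - (TT (1 / 4 + (q.2 : ℕ) * t) x : ℤ)) D (hF.deg _)
          omega
      _ = _ := by rw [sum_const, card_product, card_univ, Fintype.card_fin, card_range, smul_eq_mul]
  refine split_sum (fun n => ind (RS z (WW c) b) F n - SS F (WW c x) * wg F n) Z
    (hh k t * SS F (WW c (TT (1 / 4) x)) / Real.log x ^ k)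
    (x / Real.log x ^ B + 2 * TT (1 / 4) x * D * (1 + 2 ^ k * SS F (WW c x))) (1 + 2 ^ k * SS F (WW c x))
    (by positivity) x (fun n => phi_bd _ F _ hS n) ?_ (k * (J + 1) * (2 * D)) u v huv hv
    ((card_filter_le _ _).trans hZc)
  intro a e hae hex hno
  refine any_piece z b c D A B J t ht0 ht1 x hx F hF a e hae hex fun i j hj n hn => ?_
  have hne : ∀ s : ℤ, (∀ y ∈ brk (F i) s, y ∈ Z) → (s ≤ (F i).eval (n : ℤ) ↔ s ≤ (F i).eval (e : ℤ)) := by
    intro s hs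
    by_contra hcon
    rw [mem_Ioc] at hn
    obtain ⟨y, hy1, hy2, hy3⟩ := brk_spec (F i) (hF.pos i) s n e hn.2 hcon
    exact hno y (hs y hy1) (mem_Ioc.2 ⟨by omega, hy3⟩)
  have hmem : (i, j) ∈ (univ : Finset (Fin k)) ×ˢ range (J + 1) := mem_product.2 ⟨mem_univ _, mem_range.2 (by omega)⟩
  refine ⟨hne _ fun y hy => mem_biUnion.2 ⟨(i, j), hmem, mem_union_left _ hy⟩,
    hne _ fun y hy => mem_biUnion.2 ⟨(i, j), hmem, mem_union_right _ hy⟩⟩

end Pool.Agent.H559.UB
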